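import Pool.Agent.TH997.DD.Stm

/-!
# RESB: at nonpositive terms the dominant part is small
-/

set_option autoImplicit false

namespace Pool.Agent.TH997.DD.RESB

open Finset Pool.Agent.H612.LR Filter Topology
open scoped Classical

theorem bdd_of_ev (f : ℕ → ℝ) (K : ℝ) (N : ℕ) (h : ∀ n, N ≤ n → f n ≤ K) :
    ∃ K' : ℝ, 0 ≤ K' ∧ ∀ n, f n ≤ K' := by
  refine ⟨∑ n ∈ range N, |f n| + |K|, by positivity, fun n => ?_⟩
  have h0 : 0 ≤ ∑ n ∈ range N, |f n| := sum_nonneg fun i _ => abs_nonneg _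
  rcases lt_or_ge n N with hn | hn
  · have h1 : |f n| ≤ ∑ n ∈ range N, |f n| :=
      single_le_sum (f := fun n => |f n|) (fun i _ => abs_nonneg _) (mem_range.2 hn)
    linarith [le_abs_self (f n), abs_nonneg K]
  · linarith [h n hn, le_abs_self K]

/-- For `j < J` the quotient of the binomial coefficients is `O(1/(n+1))`. -/
theorem ratio {j J : ℕ} (h : j < J) :
    ∃ K : ℝ, 0 ≤ K ∧ ∀ n : ℕ, ((n : ℝ) + 1) * ((n.choose j : ℝ) / (n.choose J : ℝ)) ≤ K := by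
  refine bdd_of_ev _ (2 * (2 ^ J * (J.factorial : ℝ))) (2 * J + 1) fun n hn => ?_
  have hn1 : (1 : ℝ) ≤ n := by
    have : 1 ≤ n := by omega
    exact_mod_cast this
  have h1 : (n.choose j : ℝ) ≤ (n : ℝ) ^ j := by
    refine (Nat.choose_le_pow_div j n).trans ?_
    have : (1 : ℝ) ≤ (j.factorial : ℝ) := by exact_mod_cast Nat.factorial_pos j
    exact div_le_self (by positivity) this
  have hf : (0 : ℝ) < (J.factorial : ℝ) := by exact_mod_cast Nat.factorial_pos J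
  have h2 : (n : ℝ) ^ J ≤ 2 ^ J * (J.factorial : ℝ) * (n.choose J : ℝ) := by
    have h3 : ((n + 1 - J : ℕ) ^ J : ℝ) / J.factorial ≤ (n.choose J : ℝ) := Nat.pow_le_choose _ _
    have h4 : (n : ℝ) / 2 ≤ ((n + 1 - J : ℕ) : ℝ) := by
      have h5 : n ≤ 2 * (n + 1 - J) := by omega
      have h6 : (n : ℝ) ≤ 2 * ((n + 1 - J : ℕ) : ℝ) := by exact_mod_cast h5
      linarith
    calc (n : ℝ) ^ J = 2 ^ J * (J.factorial : ℝ) * (((n : ℝ) / 2) ^ J / J.factorial) := by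
          rw [div_pow]; field_simp
      _ ≤ 2 ^ J * (J.factorial : ℝ) * (((n + 1 - J : ℕ) ^ J : ℝ) / J.factorial) := by gcongr
      _ ≤ 2 ^ J * (J.factorial : ℝ) * (n.choose J : ℝ) := by gcongr
  have h7 : (0 : ℝ) < (n.choose J : ℝ) := by
    have : 0 < n.choose J := Nat.choose_pos (by omega)
    exact_mod_cast this
  rw [← mul_div_assoc, div_le_iff₀ h7]
  calc ((n : ℝ) + 1) * (n.choose j : ℝ) ≤ (2 * n) * (n : ℝ) ^ j := by
        gcongr
        linarith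
    _ = 2 * (n : ℝ) ^ (j + 1) := by rw [pow_succ]; ring
    _ ≤ 2 * (n : ℝ) ^ J := by
        have h8 : (n : ℝ) ^ (j + 1) ≤ (n : ℝ) ^ J := pow_le_pow_right₀ hn1 h
        linarith
    _ ≤ _ := by linarith

theorem termD {j J : ℕ} (h : j < J) (c z : ℂ) (hz : ‖z‖ = 1) :
    ∃ K : ℝ, 0 ≤ K ∧ ∀ n : ℕ, ((n : ℝ) + 1) *
      ‖c * (((n.choose j : ℝ) / (n.choose J : ℝ) : ℝ) : ℂ) * z ^ n‖ ≤ K := by
  obtain ⟨K, hK0, hK⟩ := ratio h
  refine ⟨‖c‖ * K, by positivity, fun n => ?_⟩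
  rw [norm_mul, norm_mul, norm_pow, hz, one_pow, mul_one, Complex.norm_real, Real.norm_eq_abs,
    abs_of_nonneg (by positivity)]
  calc ((n : ℝ) + 1) * (‖c‖ * ((n.choose j : ℝ) / (n.choose J : ℝ)))
      = ‖c‖ * (((n : ℝ) + 1) * ((n.choose j : ℝ) / (n.choose J : ℝ))) := by ring
    _ ≤ ‖c‖ * K := by gcongr; exact hK n

theorem termW (j J : ℕ) (c z : ℂ) (hz : ‖z‖ < 1) :
    ∃ K : ℝ, 0 ≤ K ∧ ∀ n : ℕ, ((n : ℝ) + 1) *
      ‖c * (((n.choose j : ℝ) / (n.choose J : ℝ) : ℝ) : ℂ) * z ^ n‖ ≤ K := by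
  have h1 : Tendsto (fun n : ℕ => (n : ℝ) ^ (j + 1) * ‖z‖ ^ n) atTop (𝓝 0) :=
    tendsto_pow_const_mul_const_pow_of_abs_lt_one (j + 1) (r := ‖z‖) (by rwa [abs_norm])
  obtain ⟨N, hN⟩ := eventually_atTop.1 (h1.eventually (ge_mem_nhds (zero_lt_one)))
  refine bdd_of_ev _ (2 * ‖c‖) (max N (J + 1)) fun n hn => ?_
  have hn1 : N ≤ n := le_trans (le_max_left _ _) hn
  have hn2 : J + 1 ≤ n := le_trans (le_max_right _ _) hn
  have hn3 : (1 : ℝ) ≤ n := by
    have : 1 ≤ n := by omega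
    exact_mod_cast this
  have h2 : (n.choose j : ℝ) ≤ (n : ℝ) ^ j := by
    refine (Nat.choose_le_pow_div j n).trans ?_
    have : (1 : ℝ) ≤ (j.factorial : ℝ) := by exact_mod_cast Nat.factorial_pos j
    exact div_le_self (by positivity) this
  have h3 : (1 : ℝ) ≤ (n.choose J : ℝ) := by
    have : 0 < n.choose J := Nat.choose_pos (by omega)
    exact_mod_cast this
  rw [norm_mul, norm_mul, norm_pow, Complex.norm_real, Real.norm_eq_abs,
    abs_of_nonneg (by positivity)]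
  have h4 : (n.choose j : ℝ) / (n.choose J : ℝ) ≤ (n : ℝ) ^ j :=
    (div_le_self (by positivity) h3).trans h2
  calc ((n : ℝ) + 1) * (‖c‖ * ((n.choose j : ℝ) / (n.choose J : ℝ)) * ‖z‖ ^ n)
      ≤ (2 * n) * (‖c‖ * (n : ℝ) ^ j * ‖z‖ ^ n) := by
        gcongr
        linarith
    _ = 2 * ‖c‖ * ((n : ℝ) ^ (j + 1) * ‖z‖ ^ n) := by rw [pow_succ]; ring
    _ ≤ 2 * ‖c‖ * 1 := by
        have := hN n hn1
        gcongr
    _ = 2 * ‖c‖ := mul_one _

theorem sum_bdd {ι : Type*} (S : Finset ι) (f : ι → ℕ → ℂ)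
    (h : ∀ i ∈ S, ∃ K : ℝ, 0 ≤ K ∧ ∀ n : ℕ, ((n : ℝ) + 1) * ‖f i n‖ ≤ K) :
    ∃ K : ℝ, 0 ≤ K ∧ ∀ n : ℕ, ((n : ℝ) + 1) * ‖∑ i ∈ S, f i n‖ ≤ K := by
  choose! K hK0 hK using h
  refine ⟨∑ i ∈ S, K i, sum_nonneg hK0, fun n => ?_⟩
  calc ((n : ℝ) + 1) * ‖∑ i ∈ S, f i n‖ ≤ ((n : ℝ) + 1) * ∑ i ∈ S, ‖f i n‖ := by
        gcongr
        exact norm_sum_le _ _
    _ = ∑ i ∈ S, ((n : ℝ) + 1) * ‖f i n‖ := by rw [mul_sum]
    _ ≤ ∑ i ∈ S, K i := sum_le_sum fun i hi => hK i hi n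

end Pool.Agent.TH997.DD.RESB

namespace Pool.Agent.TH997.DD

open Finset Pool.Agent.H612.LR
open scoped Classical

theorem resb : RESB := by
  intro l lam c q0 r ρ J S1 S2 hl hrep hq0 hcls
  obtain ⟨hρ, hJ, hS1, hS2, hsplit, hnonneg, -⟩ := hcls
  have hρC : (ρ : ℂ) ≠ 0 := by exact_mod_cast hρ.ne'
  set k := l.length with hk
  set E : ℕ → ℂ := fun n =>
    ∑ i ∈ S1, ∑ j ∈ Finset.range J, c i j * (((n.choose j : ℝ) / (n.choose J : ℝ) : ℝ) : ℂ) *
        (lam i / (ρ : ℂ)) ^ n +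
      ∑ i ∈ S2, ∑ j ∈ Finset.range k, c i j * (((n.choose j : ℝ) / (n.choose J : ℝ) : ℝ) : ℂ) *
        (lam i / (ρ : ℂ)) ^ n with hE
  have hnorm : ∀ i, ‖lam i / (ρ : ℂ)‖ = ‖lam i‖ / ρ := fun i => by
    rw [norm_div, Complex.norm_real, Real.norm_eq_abs, abs_of_pos hρ]
  obtain ⟨K1, hK10, hK1⟩ := RESB.sum_bdd S1 (fun i n => ∑ j ∈ Finset.range J,
    c i j * (((n.choose j : ℝ) / (n.choose J : ℝ) : ℝ) : ℂ) * (lam i / (ρ : ℂ)) ^ n) (by
      intro i hi
      refine RESB.sum_bdd (Finset.range J) (fun j n =>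
        c i j * (((n.choose j : ℝ) / (n.choose J : ℝ) : ℝ) : ℂ) * (lam i / (ρ : ℂ)) ^ n) ?_
      intro j hj
      exact RESB.termD (mem_range.1 hj) _ _ (by rw [hnorm, (hS1 i hi).2.1, div_self hρ.ne']))
  obtain ⟨K2, hK20, hK2⟩ := RESB.sum_bdd S2 (fun i n => ∑ j ∈ Finset.range k,
    c i j * (((n.choose j : ℝ) / (n.choose J : ℝ) : ℝ) : ℂ) * (lam i / (ρ : ℂ)) ^ n) (by
      intro i hi
      refine RESB.sum_bdd (Finset.range k) (fun j n =>
        c i j * (((n.choose j : ℝ) / (n.choose J : ℝ) : ℝ) : ℂ) * (lam i / (ρ : ℂ)) ^ n) ?_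
      intro j _
      exact RESB.termW _ _ _ _ (by rw [hnorm, div_lt_one hρ]; exact (hS2 i hi).2))
  have hEb : ∀ n : ℕ, ((n : ℝ) + 1) * ‖E n‖ ≤ K1 + K2 := by
    intro n
    calc ((n : ℝ) + 1) * ‖E n‖ ≤ ((n : ℝ) + 1) * (‖∑ i ∈ S1, ∑ j ∈ Finset.range J,
          c i j * (((n.choose j : ℝ) / (n.choose J : ℝ) : ℝ) : ℂ) * (lam i / (ρ : ℂ)) ^ n‖ +
          ‖∑ i ∈ S2, ∑ j ∈ Finset.range k,
          c i j * (((n.choose j : ℝ) / (n.choose J : ℝ) : ℝ) : ℂ) * (lam i / (ρ : ℂ)) ^ n‖) := by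
          gcongr
          exact norm_add_le _ _
      _ ≤ K1 + K2 := by
          rw [mul_add]
          exact add_le_add (hK1 n) (hK2 n)
  set H : ℝ := ∑ i ∈ S1, ‖c i J‖ with hH
  have hH0 : 0 ≤ H := sum_nonneg fun i _ => norm_nonneg _
  have hHb : ∀ n : ℕ, ‖∑ i ∈ S1, c i J * (lam i / (ρ : ℂ)) ^ n‖ ≤ H := by
    intro n
    refine (norm_sum_le _ _).trans (sum_le_sum fun i hi => ?_)
    rw [norm_mul, norm_pow, hnorm, (hS1 i hi).2.1, div_self hρ.ne', one_pow, mul_one]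
  refine ⟨2 * (K1 + K2) + H * k, fun t hneg => ?_⟩
  have ht0 : (0 : ℝ) < (t : ℝ) + 1 := by positivity
  have hnt : t ≤ r + q0 * t := by nlinarith
  rw [le_div_iff₀ ht0]
  rcases lt_or_ge (r + q0 * t) k with hn | hn
  · -- few indices
    have h1 : (t : ℝ) + 1 ≤ k := by
      have : t + 1 ≤ k := by omega
      exact_mod_cast this
    calc ‖∑ i ∈ S1, c i J * (lam i / (ρ : ℂ)) ^ (r + q0 * t)‖ * ((t : ℝ) + 1) ≤ H * k := by
          gcongr
          exact hHb _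
      _ ≤ 2 * (K1 + K2) + H * k := by linarith
  · set n := r + q0 * t with hndef
    have hnJ : J ≤ n := by omega
    have hC : (0 : ℝ) < (n.choose J : ℝ) := by
      have : 0 < n.choose J := Nat.choose_pos hnJ
      exact_mod_cast this
    have hCC : ((n.choose J : ℝ) : ℂ) ≠ 0 := by exact_mod_cast hC.ne'
    set w : ℝ := ρ ^ n * (n.choose J : ℝ) with hw
    have hw0 : 0 < w := by positivity
    have hterm : ∀ i j : ℕ, c i j * (n.choose j : ℂ) * lam i ^ n =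
        (w : ℂ) * (c i j * (((n.choose j : ℝ) / (n.choose J : ℝ) : ℝ) : ℂ) *
          (lam i / (ρ : ℂ)) ^ n) := by
      intro i j
      rw [hw, div_pow]
      push_cast
      have hpn : (ρ : ℂ) ^ n ≠ 0 := pow_ne_zero _ hρC
      have hCC' : ((n.choose J : ℕ) : ℂ) ≠ 0 := by exact_mod_cast hCC
      field_simp
    have htop : ∀ i : ℕ, c i J * (n.choose J : ℂ) * lam i ^ n =
        (w : ℂ) * (c i J * (lam i / (ρ : ℂ)) ^ n) := by
      intro i
      rw [hw, div_pow]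
      push_cast
      have hpn : (ρ : ℂ) ^ n ≠ 0 := pow_ne_zero _ hρC
      field_simp
    have htot : ((seq l n : ℚ) : ℂ) =
        (w : ℂ) * (∑ i ∈ S1, c i J * (lam i / (ρ : ℂ)) ^ n + E n) := by
      rw [(hrep (n + 1)).2.2 n hn (Nat.lt_succ_self n), ← hk, hsplit t, ← hndef, hE]
      simp only [Finset.sum_range_succ, Finset.sum_add_distrib]
      have a1 : ∑ i ∈ S1, ∑ j ∈ Finset.range J, c i j * (n.choose j : ℂ) * lam i ^ n =
          (w : ℂ) * ∑ i ∈ S1, ∑ j ∈ Finset.range J,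
            c i j * (((n.choose j : ℝ) / (n.choose J : ℝ) : ℝ) : ℂ) *
              (lam i / (ρ : ℂ)) ^ n := by
        rw [Finset.mul_sum]
        refine Finset.sum_congr rfl fun i _ => ?_
        rw [Finset.mul_sum]
        exact Finset.sum_congr rfl fun j _ => hterm i j
      have a2 : ∑ i ∈ S2, ∑ j ∈ Finset.range k, c i j * (n.choose j : ℂ) * lam i ^ n =
          (w : ℂ) * ∑ i ∈ S2, ∑ j ∈ Finset.range k,
            c i j * (((n.choose j : ℝ) / (n.choose J : ℝ) : ℝ) : ℂ) *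
              (lam i / (ρ : ℂ)) ^ n := by
        rw [Finset.mul_sum]
        refine Finset.sum_congr rfl fun i _ => ?_
        rw [Finset.mul_sum]
        exact Finset.sum_congr rfl fun j _ => hterm i j
      have a3 : ∑ i ∈ S1, c i J * (n.choose J : ℂ) * lam i ^ n =
          (w : ℂ) * ∑ i ∈ S1, c i J * (lam i / (ρ : ℂ)) ^ n := by
        rw [Finset.mul_sum]
        exact Finset.sum_congr rfl fun i _ => htop i
      rw [a1, a2, a3]
      ring
    set h : ℂ := ∑ i ∈ S1, c i J * (lam i / (ρ : ℂ)) ^ n with hh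
    have hre0 : 0 ≤ h.re := hnonneg t
    have hseqre : ((seq l n : ℚ) : ℝ) = w * (h + E n).re := by
      have := congrArg Complex.re htot
      rw [Complex.re_ofReal_mul] at this
      rw [← this]
      simp
    have hseqim : (0 : ℝ) = w * (h + E n).im := by
      have := congrArg Complex.im htot
      rw [Complex.im_ofReal_mul] at this
      rw [← this]
      simp
    have hneg' : ((seq l n : ℚ) : ℝ) ≤ 0 := by exact_mod_cast hneg
    have hre : (h + E n).re ≤ 0 := by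
      rw [hseqre] at hneg'
      by_contra hcon
      push Not at hcon
      have := mul_pos hw0 hcon
      linarith
    have him : (h + E n).im = 0 := by
      rcases mul_eq_zero.1 hseqim.symm with h1 | h1
      · exact absurd h1 hw0.ne'
      · exact h1
    rw [Complex.add_re] at hre
    rw [Complex.add_im] at him
    have e1 : |h.re| ≤ ‖E n‖ := by
      rw [abs_of_nonneg hre0]
      have := (abs_le.1 (Complex.abs_re_le_norm (E n))).1
      linarith
    have e2 : |h.im| ≤ ‖E n‖ := by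
      have h3 : h.im = -(E n).im := by linarith
      rw [h3, abs_neg]
      exact Complex.abs_im_le_norm _
    have e3 : ‖h‖ ≤ 2 * ‖E n‖ := by
      have := Complex.norm_le_abs_re_add_abs_im h
      linarith
    have e4 : (t : ℝ) + 1 ≤ (n : ℝ) + 1 := by
      have : (t : ℝ) ≤ n := by exact_mod_cast hnt
      linarith
    calc ‖h‖ * ((t : ℝ) + 1) ≤ (2 * ‖E n‖) * ((n : ℝ) + 1) := by gcongr
      _ = 2 * (((n : ℝ) + 1) * ‖E n‖) := by ring
      _ ≤ 2 * (K1 + K2) := by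
          have := hEb n
          linarith
      _ ≤ 2 * (K1 + K2) + H * k := by
          have : 0 ≤ H * k := by positivity
          linarith

end Pool.Agent.TH997.DD
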