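import Pool.Agent.TH997.DD.Stm2
import Pool.Agent.TH997.DD.RESB

/-! DD-ASYM: asymptotics in a residue class. -/

set_option autoImplicit false

namespace Pool.Agent.TH997.DD

open Finset Filter Topology Pool.Agent.H612.LR
open scoped Classical

theorem asym : ASYM := by
  intro l lam c q0 r ρ J S1 S2 hl hrep hq0 hcls
  obtain ⟨hρ, hJ, hS1, hS2, hsplit, hnonneg, -⟩ := hcls
  have hρC : (ρ : ℂ) ≠ 0 := by exact_mod_cast hρ.ne'
  set k := l.length with hk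
  set E : ℕ → ℂ := fun n =>
    ∑ i ∈ S1, ∑ j ∈ Finset.range J, c i j * (((n.choose j : ℝ) / (n.choose J : ℝ) : ℝ) : ℂ) *
        (lam i / (ρ : ℂ)) ^ n +
      ∑ i ∈ S2, ∑ j ∈ Finset.range k, c i j * (((n.choose j : ℝ) / (n.choose J : ℝ) : ℝ) : ℂ) *
        (lam i / (ρ : ℂ)) ^ n with hE
  have hnorm : ∀ i, ‖lam i / (ρ : ℂ)‖ = ‖lam i‖ / ρ := fun i => by
    rw [norm_div, Complex.norm_real, Real.norm_eq_abs, abs_of_pos hρ]
  obtain ⟨K1, hK10, hK1⟩ := RESB.sum_bdd S1 (fun i n => ∑ j ∈ Finset.range J,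
    c i j * (((n.choose j : ℝ) / (n.choose J : ℝ) : ℝ) : ℂ) * (lam i / (ρ : ℂ)) ^ n) (by
      intro i hi
      refine RESB.sum_bdd (Finset.range J) (fun j n =>
        c i j * (((n.choose j : ℝ) / (n.choose J : ℝ) : ℝ) : ℂ) * (lam i / (ρ : ℂ)) ^ n) ?_
      intro j hj
      exact RESB.termD (mem_range.1 hj) _ _ (by rw [hnorm, (hS1 i hi).2.1, div_self hρ.ne']))
  obtain ⟨K2, hK20, hK2⟩ := RESB.sum_bdd S2 (fun i n => ∑ j ∈ Finset.range k,
    c i j * (((n.choose j : ℝ) / (n.choose J : ℝ) : ℝ) : ℂ) * (lam i / (ρ : ℂ)) ^ n) (by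
      intro i hi
      refine RESB.sum_bdd (Finset.range k) (fun j n =>
        c i j * (((n.choose j : ℝ) / (n.choose J : ℝ) : ℝ) : ℂ) * (lam i / (ρ : ℂ)) ^ n) ?_
      intro j _
      exact RESB.termW _ _ _ _ (by rw [hnorm, div_lt_one hρ]; exact (hS2 i hi).2))
  have hEb : ∀ n : ℕ, ((n : ℝ) + 1) * ‖E n‖ ≤ K1 + K2 := by
    intro n
    calc ((n : ℝ) + 1) * ‖E n‖ ≤ ((n : ℝ) + 1) * (‖∑ i ∈ S1, ∑ j ∈ Finset.range J,
          c i j * (((n.choose j : ℝ) / (n.choose J : ℝ) : ℝ) : ℂ) * (lam i / (ρ : ℂ)) ^ n‖ +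
          ‖∑ i ∈ S2, ∑ j ∈ Finset.range k,
          c i j * (((n.choose j : ℝ) / (n.choose J : ℝ) : ℝ) : ℂ) * (lam i / (ρ : ℂ)) ^ n‖) := by
          gcongr
          exact norm_add_le _ _
      _ ≤ K1 + K2 := by
          rw [mul_add]
          exact add_le_add (hK1 n) (hK2 n)
  refine ⟨K1 + K2, fun t hn => ?_⟩
  have ht0 : (0 : ℝ) < (t : ℝ) + 1 := by positivity
  have hnt : t ≤ r + q0 * t := by nlinarith
  rw [le_div_iff₀ ht0]
  set n := r + q0 * t with hndef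
  have hnJ : J ≤ n := by omega
  have hC : (0 : ℝ) < (n.choose J : ℝ) := by
    have : 0 < n.choose J := Nat.choose_pos hnJ
    exact_mod_cast this
  have hCC : ((n.choose J : ℝ) : ℂ) ≠ 0 := by exact_mod_cast hC.ne'
  set w : ℝ := ρ ^ n * (n.choose J : ℝ) with hw
  have hw0 : 0 < w := by positivity
  have hterm : ∀ i j : ℕ, c i j * (n.choose j : ℂ) * lam i ^ n =
      (w : ℂ) * (c i j * (((n.choose j : ℝ) / (n.choose J : ℝ) : ℝ) : ℂ) *
        (lam i / (ρ : ℂ)) ^ n) := by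
    intro i j
    rw [hw, div_pow]
    push_cast
    have hpn : (ρ : ℂ) ^ n ≠ 0 := pow_ne_zero _ hρC
    have hCC' : ((n.choose J : ℕ) : ℂ) ≠ 0 := by exact_mod_cast hCC
    field_simp
  have htop : ∀ i : ℕ, c i J * (n.choose J : ℂ) * lam i ^ n =
      (w : ℂ) * (c i J * (lam i / (ρ : ℂ)) ^ n) := by
    intro i
    rw [hw, div_pow]
    push_cast
    have hpn : (ρ : ℂ) ^ n ≠ 0 := pow_ne_zero _ hρC
    field_simp
  have htot : ((seq l n : ℚ) : ℂ) =
      (w : ℂ) * (∑ i ∈ S1, c i J * (lam i / (ρ : ℂ)) ^ n + E n) := by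
    rw [(hrep (n + 1)).2.2 n hn (Nat.lt_succ_self n), ← hk, hsplit t, ← hndef, hE]
    simp only [Finset.sum_range_succ, Finset.sum_add_distrib]
    have a1 : ∑ i ∈ S1, ∑ j ∈ Finset.range J, c i j * (n.choose j : ℂ) * lam i ^ n =
        (w : ℂ) * ∑ i ∈ S1, ∑ j ∈ Finset.range J,
          c i j * (((n.choose j : ℝ) / (n.choose J : ℝ) : ℝ) : ℂ) *
            (lam i / (ρ : ℂ)) ^ n := by
      rw [Finset.mul_sum]
      refine Finset.sum_congr rfl fun i _ => ?_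
      rw [Finset.mul_sum]
      exact Finset.sum_congr rfl fun j _ => hterm i j
    have a2 : ∑ i ∈ S2, ∑ j ∈ Finset.range k, c i j * (n.choose j : ℂ) * lam i ^ n =
        (w : ℂ) * ∑ i ∈ S2, ∑ j ∈ Finset.range k,
          c i j * (((n.choose j : ℝ) / (n.choose J : ℝ) : ℝ) : ℂ) *
            (lam i / (ρ : ℂ)) ^ n := by
      rw [Finset.mul_sum]
      refine Finset.sum_congr rfl fun i _ => ?_
      rw [Finset.mul_sum]
      exact Finset.sum_congr rfl fun j _ => hterm i j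
    have a3 : ∑ i ∈ S1, c i J * (n.choose J : ℂ) * lam i ^ n =
        (w : ℂ) * ∑ i ∈ S1, c i J * (lam i / (ρ : ℂ)) ^ n := by
      rw [Finset.mul_sum]
      exact Finset.sum_congr rfl fun i _ => htop i
    rw [a1, a2, a3]
    ring
  have hden : (ρ : ℂ) ^ n * (n.choose J : ℂ) = (w : ℂ) := by
    rw [hw]; push_cast; ring
  have hwC : (w : ℂ) ≠ 0 := by exact_mod_cast hw0.ne'
  rw [htot, hden, mul_div_cancel_left₀ _ hwC, add_sub_cancel_left]
  have e4 : (t : ℝ) + 1 ≤ (n : ℝ) + 1 := by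
    have : (t : ℝ) ≤ n := by exact_mod_cast hnt
    linarith
  calc ‖E n‖ * ((t : ℝ) + 1) ≤ ‖E n‖ * ((n : ℝ) + 1) := by gcongr
    _ = ((n : ℝ) + 1) * ‖E n‖ := by ring
    _ ≤ K1 + K2 := hEb n

end Pool.Agent.TH997.DD
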