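import Pool.Agent.TH997.DD.Stm

/-! # Without certificate data the nonpositive terms are sparse (assembly) -/

set_option autoImplicit false

namespace Pool.Agent.TH997.DD

open Finset Pool.Agent.H612.LR
open scoped Classical

/-- splitting the indices into residue classes -/
theorem CLE.split (P : ℕ → Prop) [DecidablePred P] (q0 N : ℕ) (hq0 : 1 ≤ q0) :
    (((range N).filter (fun n => P n)).card : ℝ) ≤
      ∑ r ∈ range q0, (((range N).filter (fun t => P (r + q0 * t))).card : ℝ) := by
  have hsub : (range N).filter (fun n => P n) ⊆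
      (range q0).biUnion (fun r => ((range N).filter (fun t => P (r + q0 * t))).image
        (fun t => r + q0 * t)) := by
    intro n hn
    rw [mem_filter, mem_range] at hn
    rw [mem_biUnion]
    have hdm : n % q0 + q0 * (n / q0) = n := Nat.mod_add_div n q0
    refine ⟨n % q0, mem_range.2 (Nat.mod_lt _ (by omega)), ?_⟩
    rw [mem_image]
    refine ⟨n / q0, ?_, hdm⟩
    rw [mem_filter, mem_range, hdm]
    exact ⟨lt_of_le_of_lt (Nat.div_le_self _ _) hn.1, hn.2⟩
  have h1 : ((range N).filter (fun n => P n)).card ≤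
      ∑ r ∈ range q0, ((range N).filter (fun t => P (r + q0 * t))).card := by
    refine (card_le_card hsub).trans (card_biUnion_le.trans ?_)
    exact sum_le_sum fun r _ => card_image_le
  exact_mod_cast h1

theorem cle : RESA → RESB → RESC → CTE → CLE := by
  intro hA hB hC hT l lam c q0 hl hrep hroot hq0 htor hno
  have key : ∀ r : ℕ, ∃ C' : ℝ, ∀ N : ℕ, 2 ≤ N →
      (((range N).filter (fun t => seq l (r + q0 * t) ≤ 0)).card : ℝ) ≤
        C' * (N / Real.log N ^ ((1 / 2 : ℝ) ^ l.length)) := by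
    intro r
    obtain ⟨ρ, J, S1, S2, hcls⟩ := hA l lam c q0 hl hrep hroot hq0 hno r
    obtain ⟨C, hCb⟩ := hB l lam c q0 r ρ J S1 S2 hl hrep hq0 hcls
    obtain ⟨I, a, B, hI, hI1, hsep, hne, hsum⟩ := hC l lam c q0 r ρ J S1 S2 hl hq0 htor hcls
    obtain ⟨C', hC'⟩ := hT l.length I a B C hI hI1 hsep hne
    refine ⟨C', fun N hN => le_trans ?_ (hC' N hN)⟩
    have h2 : (range N).filter (fun t => seq l (r + q0 * t) ≤ 0) ⊆
        (range N).filter (fun t : ℕ => ‖∑ μ ∈ I, a μ * μ ^ t‖ ≤ C / ((t : ℝ) + 1)) := by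
      intro t ht
      rw [mem_filter] at ht ⊢
      refine ⟨ht.1, ?_⟩
      rw [← hsum t]
      exact hCb t ht.2
    exact_mod_cast card_le_card h2
  choose C' hC' using key
  refine ⟨∑ r ∈ range q0, C' r, fun N hN => ?_⟩
  rw [sum_mul]
  refine (CLE.split (fun n => seq l n ≤ 0) q0 N hq0).trans ?_
  exact sum_le_sum fun r _ => hC' r N hN

end Pool.Agent.TH997.DD
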