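import Pool.Agent.TH997.DD.Stm2

/-! # Tame recurrences without certificate are ultimately positive (helper496, job 4350) -/

set_option autoImplicit false

namespace Pool.Agent.TH997.DD

open Finset Filter Topology Pool.Agent.H612.LR
open scoped Classical

/-- from the residue classes modulo `q` to all indices -/
theorem CLT.glue (P : ℕ → Prop) (a s q : ℕ) (hq : 1 ≤ q)
    (h : ∀ r < q, ∃ T : ℕ, ∀ t, T ≤ t → P (a + s * r + s * q * t)) :
    ∃ T : ℕ, ∀ n, T ≤ n → P (a + s * n) := by
  choose! T hT using h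
  refine ⟨q * ∑ r ∈ range q, T r, fun n hn => ?_⟩
  have hr : n % q < q := Nat.mod_lt _ (by omega)
  have h1 : ∑ r ∈ range q, T r ≤ n / q := by
    rw [Nat.le_div_iff_mul_le (by omega), mul_comm]
    exact hn
  have h2 : T (n % q) ≤ ∑ r ∈ range q, T r :=
    single_le_sum (f := T) (fun _ _ => Nat.zero_le _) (mem_range.2 hr)
  have h3 := hT (n % q) hr (n / q) (h2.trans h1)
  have h4 : a + s * (n % q) + s * q * (n / q) = a + s * n := by
    have h5 := Nat.mod_add_div n q
    calc a + s * (n % q) + s * q * (n / q) = a + s * (n % q + q * (n / q)) := by ring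
      _ = a + s * n := by rw [h5]
  rw [h4] at h3
  exact h3

theorem clt : RESA → TAM → GRW → CLT := by
  intro hA hT hG hgrow l lam c q0 hl hrep hroot halg hq0 htor hno htame
  obtain ⟨b0, hb0, htame⟩ := htame
  have key : ∀ r : ℕ, ∃ T : ℕ, ∀ t, T ≤ t → 0 < seq l (r + q0 * t) := by
    intro r
    obtain ⟨ρ, J, S1, S2, hcls⟩ := hA l lam c q0 hl hrep hroot hq0 hno r
    by_cases hJ : J = 0
    · subst hJ
      exact hG hgrow l lam c q0 r ρ S1 S2 hl hrep halg hq0 htor hcls
    · refine CLT.glue (fun n => 0 < seq l n) r q0 b0 hb0 fun t0 _ => ?_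
      have h1 : TameAt l (r + q0 * t0) (q0 * b0) :=
        htame (q0 * b0) (Nat.mul_pos hq0 hb0) (dvd_mul_left _ _) _
      rcases hT l lam c q0 r ρ J S1 S2 hl hrep hq0 htor hcls t0 b0 hb0 h1 with h2 | h2
      · exact absurd h2 hJ
      · exact h2
  obtain ⟨T, hTT⟩ := CLT.glue (fun n => 0 < seq l n) 0 1 q0 hq0 fun r _ => by
    obtain ⟨T, hT⟩ := key r
    refine ⟨T, fun t ht => ?_⟩
    have := hT t ht
    simpa using this
  refine ⟨T, fun n hn => ?_⟩
  have := hTT n hn
  simpa using this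

end Pool.Agent.TH997.DD
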