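import Pool.Agent.TH997.DD.Stm

/-!
# CTE: an exponential sum is seldom very small, counting form (helper915)
-/

set_option autoImplicit false

namespace Pool.Agent.TH997.DD

open Finset Pool.Agent.H612.LR
open scoped Classical

namespace CTE

theorem rpow_le_one_add {L κ : ℝ} (hL : 0 < L) (hκ0 : 0 < κ) (hκ1 : κ ≤ 1) :
    L ^ κ ≤ 1 + L := by
  rcases le_total L 1 with h | h
  · have := Real.rpow_le_one hL.le h hκ0.le
    linarith
  · have := Real.rpow_le_rpow_of_exponent_le h hκ1
    rw [Real.rpow_one] at this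
    linarith

theorem log_le_sqrt {x : ℝ} (hx : 0 < x) : Real.log x ≤ 2 * Real.sqrt x := by
  have h1 : Real.log x = 2 * Real.log (Real.sqrt x) := by
    rw [Real.log_sqrt hx.le]; ring
  rw [h1]
  have h2 := Real.log_le_sub_one_of_pos (Real.sqrt_pos.2 hx)
  linarith

/-- the small indices -/
theorem card_small (F : Finset ℕ) (N : ℕ) :
    ((F.filter (fun t : ℕ => ¬ N ≤ (t + 1) ^ 2)).card : ℝ) ≤ Real.sqrt N := by
  have h1 : F.filter (fun t : ℕ => ¬ N ≤ (t + 1) ^ 2) ⊆ range (Nat.sqrt N) := by
    intro t ht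
    obtain ⟨-, h2⟩ := Finset.mem_filter.1 ht
    rw [Finset.mem_range]
    have h3 : (t + 1) * (t + 1) ≤ N := by
      have : (t + 1) ^ 2 = (t + 1) * (t + 1) := by ring
      omega
    have := Nat.le_sqrt.2 h3
    omega
  have h2 := Finset.card_le_card h1
  rw [Finset.card_range] at h2
  have h3 : ((Nat.sqrt N : ℕ) : ℝ) ≤ Real.sqrt N := by
    apply Real.le_sqrt_of_sq_le
    exact_mod_cast Nat.sqrt_le' N
  refine le_trans ?_ h3
  exact_mod_cast h2

theorem alg1 {c N : ℝ} (hc : 0 < c) (hN : 0 < N) : c = 20 * N / (20 / (c / N)) := by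
  field_simp

theorem alg2 {N b k : ℝ} (hb : 0 < b) (hk : 0 < k) :
    20 * N / (k / (4 * b)) = 80 * b * (N / k) := by
  field_simp
  ring

end CTE

open CTE in
theorem cte : REM → CTE := by
  rintro hrem m I a B C hI hnorm hsep ⟨μ0, hμ0, ha0⟩
  set κ : ℝ := (1 / 2 : ℝ) ^ m with hκ
  have hκ0 : 0 < κ := by positivity
  have hκ1 : κ ≤ 1 := pow_le_one₀ (by norm_num) (by norm_num)
  have hκP : κ = (((2 ^ m : ℕ) : ℝ))⁻¹ := by
    rw [hκ]; push_cast; rw [one_div, inv_pow]
  set B1 : ℝ := max B 1 with hB1
  have hB11 : 1 ≤ B1 := le_max_right _ _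
  have hsep1 : Sep I B1 := by
    intro μ hμ ν hν hne s hs
    refine le_trans ?_ (hsep μ hμ ν hν hne s hs)
    apply Real.exp_le_exp.2
    have : B * s ≤ B1 * s := mul_le_mul_of_nonneg_right (le_max_left _ _) (Nat.cast_nonneg _)
    linarith
  set C1 : ℝ := max C 1 with hC1
  have hC11 : 1 ≤ C1 := le_max_right _ _
  set A : ℝ := ‖a μ0‖ with hA
  have hA0 : 0 < A := norm_pos_iff.2 ha0
  set D : ℝ := 4 * |Real.log (C1 / A)| with hD
  have hD0 : 0 ≤ D := by positivity
  refine ⟨4 + 80 * B1 + D, fun N hN => ?_⟩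
  have hN1 : (1 : ℝ) < N := by exact_mod_cast hN
  have hN0 : (0 : ℝ) < N := by linarith
  set L : ℝ := Real.log N with hL
  have hL0 : 0 < L := Real.log_pos hN1
  have hLk : 0 < L ^ κ := Real.rpow_pos_of_pos hL0 κ
  have hLk1 : L ^ κ ≤ 1 + L := rpow_le_one_add hL0 hκ0 hκ1
  set F : Finset ℕ := (range N).filter
    (fun t : ℕ => ‖∑ μ ∈ I, a μ * μ ^ t‖ ≤ C / ((t : ℝ) + 1)) with hF
  set Q : ℝ := (N : ℝ) / L ^ κ with hQ
  have hQ0 : 0 < Q := by positivity
  have hNQ : (N : ℝ) = Q * L ^ κ := by rw [hQ]; field_simp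
  have hFN : (F.card : ℝ) ≤ N := by
    have h1 : F.card ≤ (range N).card := Finset.card_le_card (Finset.filter_subset _ _)
    rw [Finset.card_range] at h1
    exact_mod_cast h1
  rcases lt_or_ge L D with hLD | hLD
  · calc (F.card : ℝ) ≤ N := hFN
      _ = Q * L ^ κ := hNQ
      _ ≤ Q * (4 + 80 * B1 + D) := by
          apply mul_le_mul_of_nonneg_left _ hQ0.le
          linarith
      _ = _ := mul_comm _ _
  · -- the large indices
    set E : Finset ℕ := F.filter (fun t : ℕ => N ≤ (t + 1) ^ 2) with hE
    have hsplit : (F.card : ℝ) ≤ (E.card : ℝ) + Real.sqrt N := by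
      have h1 := Finset.card_filter_add_card_filter_not (s := F) (fun t : ℕ => N ≤ (t + 1) ^ 2)
      have h2 := card_small F N
      have h3 : (F.card : ℝ) = (E.card : ℝ) +
          ((F.filter (fun t : ℕ => ¬ N ≤ (t + 1) ^ 2)).card : ℝ) := by
        rw [hE]; exact_mod_cast h1.symm
      linarith
    have hsq : Real.sqrt N ≤ 3 * Q := by
      have hs0 : 0 < Real.sqrt N := Real.sqrt_pos.2 hN0
      have hs1 : 1 ≤ Real.sqrt N := by
        rw [Real.one_le_sqrt]; exact hN1.le
      have h1 := log_le_sqrt hN0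
      have h2 : L ^ κ ≤ 3 * Real.sqrt N := by
        have : L ≤ 2 * Real.sqrt N := h1
        linarith
      rw [hQ, ← mul_div_assoc, le_div_iff₀ hLk]
      calc Real.sqrt N * L ^ κ ≤ Real.sqrt N * (3 * Real.sqrt N) :=
            mul_le_mul_of_nonneg_left h2 hs0.le
        _ = 3 * (Real.sqrt N * Real.sqrt N) := by ring
        _ = 3 * N := by rw [Real.mul_self_sqrt hN0.le]
    have hEb : (E.card : ℝ) ≤ 80 * B1 * Q := by
      rcases Nat.eq_zero_or_pos E.card with h0 | hpos
      · rw [h0]; push_cast; positivity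
      · have hc0 : (0 : ℝ) < E.card := by exact_mod_cast hpos
        set ε : ℝ := (E.card : ℝ) / N with hε
        have hε0 : 0 < ε := div_pos hc0 hN0
        have hEF : (E.card : ℝ) ≤ F.card := by
          exact_mod_cast Finset.card_le_card (Finset.filter_subset _ _)
        have hε1 : ε ≤ 1 := by
          rw [hε, div_le_one hN0]
          exact hEF.trans hFN
        set X : ℝ := 20 / ε with hX
        have hX0 : 0 < X := div_pos (by norm_num) hε0
        have hEX : (E.card : ℝ) = 20 * N / X := alg1 hc0 hN0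
        have hXk : (X ^ (2 ^ m)) ^ κ = X := by
          rw [hκP]
          exact Real.pow_rpow_inv_natCast hX0.le (by positivity)
        -- it is enough to bound `X` from below
        have key : L ^ κ / (4 * B1) ≤ X → (E.card : ℝ) ≤ 80 * B1 * Q := by
          intro h
          have h4 : 0 < L ^ κ / (4 * B1) := by positivity
          rw [hEX]
          calc 20 * (N : ℝ) / X ≤ 20 * N / (L ^ κ / (4 * B1)) := by
                apply div_le_div_of_nonneg_left (by positivity) h4 h
            _ = 80 * B1 * Q := alg2 (by linarith) hLk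
        apply key
        have hB4 : (1 : ℝ) ≤ 4 * B1 := by linarith
        rcases le_or_gt (X ^ (2 ^ m)) (N : ℝ) with hc | hc
        · have hr := hrem m I a B1 ε (C1 / Real.sqrt N) N E μ0 hI hB11 hμ0 hnorm hsep1 hε0 hε1
            hc (fun t ht => (Finset.mem_filter.1 (Finset.mem_filter.1 ht).1).1)
            (by rw [hε, div_mul_cancel₀ _ hN0.ne']) (by
              intro t ht
              obtain ⟨h1, h2⟩ := Finset.mem_filter.1 ht
              have h3 := (Finset.mem_filter.1 h1).2
              have ht1 : (0 : ℝ) < (t : ℝ) + 1 := by positivity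
              have h4 : Real.sqrt N ≤ (t : ℝ) + 1 := by
                rw [Real.sqrt_le_left ht1.le]
                exact_mod_cast h2
              calc ‖∑ μ ∈ I, a μ * μ ^ t‖ ≤ C / ((t : ℝ) + 1) := h3
                _ ≤ C1 / ((t : ℝ) + 1) := by
                    apply div_le_div_of_nonneg_right (le_max_left _ _) ht1.le
                _ ≤ C1 / Real.sqrt N :=
                    div_le_div_of_nonneg_left (by linarith) (Real.sqrt_pos.2 hN0) h4)
          have hC10 : 0 < C1 := by linarith
          have h1 : Real.exp (-(B1 * X ^ (2 ^ m))) ≤ C1 / A / Real.sqrt N := by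
            rw [div_div, mul_comm A, ← div_div, le_div_iff₀ hA0, mul_comm]
            exact hr
          have h2 := Real.log_le_log (Real.exp_pos _) h1
          rw [Real.log_exp, Real.log_div (by positivity) (Real.sqrt_pos.2 hN0).ne',
            Real.log_sqrt hN0.le] at h2
          have h3 := le_abs_self (Real.log (C1 / A))
          have h4 : L / 4 ≤ B1 * X ^ (2 ^ m) := by
            have : Real.log N = L := rfl
            linarith
          have h5 : L / (4 * B1) ≤ X ^ (2 ^ m) := by
            rw [div_le_iff₀ (by positivity)]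
            linarith
          calc L ^ κ / (4 * B1) ≤ L ^ κ / (4 * B1) ^ κ := by
                apply div_le_div_of_nonneg_left hLk.le (by positivity)
                have := Real.rpow_le_rpow_of_exponent_le hB4 hκ1
                rwa [Real.rpow_one] at this
            _ = (L / (4 * B1)) ^ κ := (Real.div_rpow hL0.le (by positivity) κ).symm
            _ ≤ (X ^ (2 ^ m)) ^ κ := Real.rpow_le_rpow (by positivity) h5 hκ0.le
            _ = X := hXk
        · have hLN : L ≤ N := by
            have := Real.log_le_sub_one_of_pos hN0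
            linarith
          calc L ^ κ / (4 * B1) ≤ L ^ κ := div_le_self hLk.le hB4
            _ ≤ (X ^ (2 ^ m)) ^ κ := Real.rpow_le_rpow hL0.le (hLN.trans hc.le) hκ0.le
            _ = X := hXk
    calc (F.card : ℝ) ≤ (E.card : ℝ) + Real.sqrt N := hsplit
      _ ≤ 80 * B1 * Q + 3 * Q := by linarith
      _ ≤ (4 + 80 * B1 + D) * Q := by
          have : 0 ≤ (1 + D) * Q := by positivity
          nlinarith

end Pool.Agent.TH997.DD
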