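import Pool.Agent.TH997.DD.Stm

/-!
# A set with bounded gaps is not sparse
-/

set_option autoImplicit false

namespace Pool.Agent.TH997.DD

open Finset Filter Topology Pool.Agent.H612.LR
open scoped Classical

theorem EXC.card_ge (l : Rec) (b : ℕ) (hb : ∀ N : ℕ, ∃ n, N ≤ n ∧ n ≤ N + b ∧ seq l n ≤ 0)
    (M : ℕ) : M ≤ ((range (M * (b + 1))).filter (fun n => seq l n ≤ 0)).card := by
  induction M with
  | zero => exact Nat.zero_le _
  | succ M ih =>
    obtain ⟨n, h1, h2, h3⟩ := hb (M * (b + 1))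
    have hn : n ∉ (range (M * (b + 1))).filter (fun n => seq l n ≤ 0) := by
      rw [mem_filter, mem_range]
      omega
    have hsub : insert n ((range (M * (b + 1))).filter (fun n => seq l n ≤ 0)) ⊆
        (range ((M + 1) * (b + 1))).filter (fun n => seq l n ≤ 0) := by
      intro m hm
      rw [mem_insert] at hm
      rw [mem_filter, mem_range]
      have e : (M + 1) * (b + 1) = M * (b + 1) + (b + 1) := by ring
      rcases hm with rfl | hm
      · exact ⟨by omega, h3⟩
      · rw [mem_filter, mem_range] at hm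
        exact ⟨by omega, hm.2⟩
    have := card_le_card hsub
    rw [card_insert_of_notMem hn] at this
    omega

/-- A set with bounded gaps is not sparse. -/
theorem exc (l : Rec) (h1 : Synd l) (h2 : Sparse l) : False := by
  obtain ⟨b, hb⟩ := h1
  obtain ⟨C, hC⟩ := h2
  set θ : ℝ := (1 / 2 : ℝ) ^ l.length with hθ
  have hθ0 : 0 < θ := by positivity
  have ht : Tendsto (fun M : ℕ => Real.log ((M * (b + 1) : ℕ) : ℝ) ^ θ) atTop atTop := by
    refine (tendsto_rpow_atTop hθ0).comp (Real.tendsto_log_atTop.comp ?_)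
    refine tendsto_natCast_atTop_atTop.comp ?_
    refine tendsto_atTop_mono (fun M => ?_) tendsto_id
    exact Nat.le_mul_of_pos_right M (Nat.succ_pos b)
  obtain ⟨M, hM1, hM2⟩ := ((ht.eventually_gt_atTop (max (C * (b + 1)) 0)).and
    (eventually_ge_atTop 2)).exists
  have hM3 : 2 ≤ M * (b + 1) := le_trans hM2 (Nat.le_mul_of_pos_right M (Nat.succ_pos b))
  have h3 := hC (M * (b + 1)) hM3
  have h4 : (M : ℝ) ≤ (((range (M * (b + 1))).filter (fun n => seq l n ≤ 0)).card : ℝ) := by
    exact_mod_cast EXC.card_ge l b hb M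
  have hpos : 0 < Real.log ((M * (b + 1) : ℕ) : ℝ) ^ θ := lt_of_le_of_lt (le_max_right _ _) hM1
  have h5 : (M : ℝ) ≤ C * (((M * (b + 1) : ℕ) : ℝ) / Real.log ((M * (b + 1) : ℕ) : ℝ) ^ θ) :=
    h4.trans h3
  have hM0 : (0 : ℝ) < M := by exact_mod_cast (by omega : 0 < M)
  have h6 : (M : ℝ) * Real.log ((M * (b + 1) : ℕ) : ℝ) ^ θ ≤ M * (C * (b + 1)) := by
    rw [← mul_div_assoc, le_div_iff₀ hpos] at h5
    refine h5.trans (le_of_eq ?_)
    push_cast
    ring
  have h7 := le_of_mul_le_mul_left h6 hM0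
  exact absurd (lt_of_le_of_lt (le_max_left _ _) hM1) (not_lt.2 h7)

end Pool.Agent.TH997.DD
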