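import Pool.Agent.TH997.DD.Stm2
import Pool.Agent.TH286.GT.CLD

set_option autoImplicit false

namespace Pool.Agent.TH997.DD

open Finset Filter Topology Pool.Agent.H612.LR
open scoped Classical

namespace GRW

lemma alg_of_root (l : Rec) {z : ℂ} (h1 : IsRoot l z) : IsAlgebraic ℚ z := by
  refine ⟨chi l, ?_, ?_⟩
  · have hm : (chi l).Monic := by
      unfold chi
      refine Polynomial.monic_X_pow_sub ?_
      refine (Polynomial.degree_sum_le _ _).trans_lt ?_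
      rw [Finset.sup_lt_iff (by exact_mod_cast WithBot.bot_lt_coe _)]
      intro j hj
      refine (Polynomial.degree_C_mul_X_pow_le _ _).trans_lt ?_
      have hj' := Finset.mem_range.1 hj
      have : l.length - 1 - j < l.length := by omega
      exact_mod_cast this
    exact hm.ne_zero
  · unfold chi
    rw [map_sub, map_pow, Polynomial.aeval_X, map_sum]
    simp only [map_mul, map_pow, Polynomial.aeval_X, Polynomial.aeval_C]
    rw [sub_eq_zero]
    unfold IsRoot at h1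
    rw [h1]
    rfl

/-- the size of the lower part -/
lemma low_bound (k r q0 : ℕ) (lam : ℕ → ℂ) (c : ℕ → ℕ → ℂ) (S2 : Finset ℕ) (μ : ℝ)
    (hμ : ∀ i ∈ S2, ‖lam i‖ ^ q0 ≤ μ) (t : ℕ) :
    ‖∑ i ∈ S2, ∑ j ∈ range k, c i j * ((r + q0 * t).choose j : ℂ) * lam i ^ (r + q0 * t)‖ ≤
      (∑ i ∈ S2, ∑ j ∈ range k, ‖c i j‖ * ‖lam i‖ ^ r) * ((r + q0 * t + 1 : ℕ) : ℝ) ^ k *
        μ ^ t := by
  rw [Finset.sum_mul, Finset.sum_mul]
  refine (norm_sum_le _ _).trans (Finset.sum_le_sum fun i hi => ?_)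
  rw [Finset.sum_mul, Finset.sum_mul]
  refine (norm_sum_le _ _).trans (Finset.sum_le_sum fun j hj => ?_)
  have hjk : j ≤ k := (Finset.mem_range.1 hj).le
  rw [norm_mul, norm_mul, norm_pow, Complex.norm_natCast]
  have h1 : (((r + q0 * t).choose j : ℕ) : ℝ) ≤ ((r + q0 * t + 1 : ℕ) : ℝ) ^ k := by
    have h2 : (r + q0 * t).choose j ≤ (r + q0 * t + 1) ^ k :=
      (Nat.choose_le_pow _ j).trans ((Nat.pow_le_pow_left (Nat.le_succ _) j).trans
        (Nat.pow_le_pow_right (Nat.succ_pos _) hjk))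
    exact_mod_cast h2
  have h3 : ‖lam i‖ ^ (r + q0 * t) ≤ ‖lam i‖ ^ r * μ ^ t := by
    rw [pow_add, pow_mul]
    exact mul_le_mul_of_nonneg_left (pow_le_pow_left₀ (by positivity) (hμ i hi) t)
      (by positivity)
  calc ‖c i j‖ * (((r + q0 * t).choose j : ℕ) : ℝ) * ‖lam i‖ ^ (r + q0 * t)
      ≤ ‖c i j‖ * ((r + q0 * t + 1 : ℕ) : ℝ) ^ k * (‖lam i‖ ^ r * μ ^ t) := by
        refine mul_le_mul (mul_le_mul_of_nonneg_left h1 (norm_nonneg _)) h3 (by positivity)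
          (by positivity)
    _ = ‖c i j‖ * ‖lam i‖ ^ r * ((r + q0 * t + 1 : ℕ) : ℝ) ^ k * μ ^ t := by ring

end GRW

open GRW in
theorem grw : GRW := by
  intro hG l lam c q0 r ρ S1 S2 hlen hrep halg hq0 htor H
  have hρ : 0 < ρ := H.rho
  have hρc : (ρ : ℂ) ≠ 0 := by exact_mod_cast hρ.ne'
  obtain ⟨κ, hκ1, hκ2, -⟩ := CLCaux.exists_kappa S1 (fun i => lam i ^ q0)
  have hlam0 : ∀ i ∈ S1, lam i ≠ 0 := fun i hi h0 => by
    have := (H.s1 i hi).2.1
    rw [h0, norm_zero] at this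
    exact absurd this hρ.ne
  -- the classes
  obtain ⟨SS, hSS⟩ : ∃ SS : ℕ → ℂ, ∀ s, SS s =
    ∑ i ∈ S1.filter (fun i => κ i = s), c i 0 * lam i ^ r := ⟨_, fun _ => rfl⟩
  have hA : ∀ t : ℕ, ∑ i ∈ S1, c i 0 * lam i ^ (r + q0 * t) =
      ∑ s ∈ S1, SS s * (lam s ^ q0) ^ t := by
    intro t
    rw [← Finset.sum_fiberwise_of_maps_to (t := S1) (g := κ) (fun i hi => (hκ1 i hi).1)]
    refine Finset.sum_congr rfl fun s _ => ?_
    rw [hSS, Finset.sum_mul]
    refine Finset.sum_congr rfl fun i hi => ?_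
    obtain ⟨hi1, hi2⟩ := Finset.mem_filter.1 hi
    have h1 : lam s ^ q0 = lam i ^ q0 := by
      have := (hκ1 i hi1).2
      rw [hi2] at this
      exact this
    rw [h1, pow_add, pow_mul]
    ring
  obtain ⟨T, hT⟩ : ∃ T : Finset ℕ, T = S1.filter (fun s => SS s ≠ 0) := ⟨_, rfl⟩
  have hA2 : ∀ t : ℕ, ∑ i ∈ S1, c i 0 * lam i ^ (r + q0 * t) =
      ∑ s ∈ T, SS s * (lam s ^ q0) ^ t := by
    intro t
    rw [hA, hT, Finset.sum_filter]
    refine Finset.sum_congr rfl fun s _ => ?_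
    split_ifs with h
    · rfl
    · rw [not_not] at h
      rw [h, zero_mul]
  -- the normalised sum
  have hnorm : ∀ t : ℕ, ∑ i ∈ S1, c i 0 * lam i ^ (r + q0 * t) =
      ((ρ ^ (r + q0 * t) : ℝ) : ℂ) * ∑ i ∈ S1, c i 0 * (lam i / (ρ : ℂ)) ^ (r + q0 * t) := by
    intro t
    rw [Finset.mul_sum]
    refine Finset.sum_congr rfl fun i _ => ?_
    rw [div_pow]
    push_cast
    field_simp
  have hTne : T.Nonempty := by
    rw [Finset.nonempty_iff_ne_empty]
    intro hTe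
    obtain ⟨t, ht⟩ := H.ne
    apply ht
    have h1 := hnorm t
    rw [hA2 t, hTe, Finset.sum_empty] at h1
    have h2 : ((ρ ^ (r + q0 * t) : ℝ) : ℂ) ≠ 0 := by
      push_cast
      exact pow_ne_zero _ hρc
    exact (mul_eq_zero.1 h1.symm).resolve_left h2
  obtain ⟨s0, hs0⟩ := hTne
  -- the moduli
  obtain ⟨MS, hMS⟩ : ∃ MS : Finset ℝ, MS = insert 0 (S2.image fun i => ‖lam i‖ ^ q0) := ⟨_, rfl⟩
  have hMSne : MS.Nonempty := by
    rw [hMS]
    exact ⟨0, Finset.mem_insert_self _ _⟩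
  obtain ⟨μ, hμd⟩ : ∃ μ : ℝ, μ = MS.max' hMSne := ⟨_, rfl⟩
  have hμ0 : 0 ≤ μ := by
    rw [hμd]
    refine Finset.le_max' _ _ ?_
    rw [hMS]
    exact Finset.mem_insert_self _ _
  have hμρ : μ < ρ ^ q0 := by
    have h1 := Finset.max'_mem MS hMSne
    rw [← hμd, hMS] at h1
    rcases Finset.mem_insert.1 h1 with h | h
    · rw [h]; positivity
    · obtain ⟨i, hi, hie⟩ := Finset.mem_image.1 h
      rw [← hie]
      exact pow_lt_pow_left₀ (H.s2 i hi).2 (norm_nonneg _) (by omega)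
  have hWμ : ∀ i ∈ S2, ‖lam i‖ ^ q0 ≤ μ := fun i hi => by
    rw [hμd]
    refine Finset.le_max' MS (‖lam i‖ ^ q0) ?_
    rw [hMS]
    exact Finset.mem_insert_of_mem (Finset.mem_image_of_mem (fun i => ‖lam i‖ ^ q0) hi)
  obtain ⟨R, hR⟩ : ∃ R : ℝ, R = (μ + ρ ^ q0) / 2 := ⟨_, rfl⟩
  have hRμ : μ < R := by rw [hR]; linarith
  have hRρ : R < ρ ^ q0 := by rw [hR]; linarith
  have hR0 : 0 < R := lt_of_le_of_lt hμ0 hRμ
  have hal : ∀ i ∈ S1, IsAlgebraic ℚ (lam i) := fun i hi => alg_of_root l (H.s1 i hi).2.2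
  -- the growth theorem
  obtain ⟨N1, hN1⟩ := hG T (fun s => lam s ^ q0) SS (by
    intro s hs
    rw [hT] at hs
    obtain ⟨hs1, hs2⟩ := Finset.mem_filter.1 hs
    refine ⟨(hal s hs1).pow q0, ?_, pow_ne_zero _ (hlam0 s hs1), hs2⟩
    have : ∀ A : Finset ℕ, (∀ i ∈ A, i ∈ S1) →
        IsAlgebraic ℚ (∑ i ∈ A, c i 0 * lam i ^ r) := by
      intro A
      induction A using Finset.induction_on with
      | empty => intro _; simpa using (isAlgebraic_zero : IsAlgebraic ℚ (0 : ℂ))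
      | insert a A ha ih =>
        intro hA
        rw [Finset.sum_insert ha]
        have haA := hA a (Finset.mem_insert_self a A)
        exact ((halg a (H.s1 a haA).1).mul ((hal a haA).pow r)).add
          (ih fun i hi => hA i (Finset.mem_insert_of_mem hi))
    rw [hSS]
    exact this _ fun i hi => (Finset.mem_filter.1 hi).1) (by
    intro s hs s' hs' hne t ht heq
    rw [hT] at hs hs'
    obtain ⟨hs1, hs2⟩ := Finset.mem_filter.1 hs
    obtain ⟨hs1', hs2'⟩ := Finset.mem_filter.1 hs'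
    have hκs : ∀ s, SS s ≠ 0 → ∃ i ∈ S1, κ i = s := by
      intro s hss
      by_contra hcon
      push Not at hcon
      apply hss
      rw [hSS]
      refine Finset.sum_eq_zero fun i hi => ?_
      obtain ⟨hi1, hi2⟩ := Finset.mem_filter.1 hi
      exact absurd hi2 (hcon i hi1)
    obtain ⟨i, hi, hie⟩ := hκs s hs2
    obtain ⟨i', hi', hie'⟩ := hκs s' hs2'
    have h1 : lam s ^ (q0 * t) = lam s' ^ (q0 * t) := by
      rw [pow_mul, pow_mul]; exact heq
    have h2 := htor (lam s) (lam s') (H.s1 s hs1).2.2 (H.s1 s' hs1').2.2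
      (hlam0 s hs1) (hlam0 s' hs1') (q0 * t) (Nat.mul_pos hq0 ht) h1
    have h3 : lam i ^ q0 = lam i' ^ q0 := by
      have e1 := (hκ1 i hi).2
      have e2 := (hκ1 i' hi').2
      rw [hie] at e1
      rw [hie'] at e2
      rw [← e1, ← e2, h2]
    apply hne
    rw [← hie, ← hie']
    exact hκ2 i hi i' hi' h3) R hR0.le ⟨s0, hs0, by
      show R < ‖lam s0 ^ q0‖
      have hs0' : s0 ∈ S1 := by
        rw [hT] at hs0
        exact (Finset.mem_filter.1 hs0).1
      rw [norm_pow, (H.s1 s0 hs0').2.1]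
      exact hRρ⟩
  -- the lower part
  obtain ⟨A0, hA0⟩ : ∃ A0 : ℝ, A0 = ∑ i ∈ S2, ∑ j ∈ range l.length, ‖c i j‖ * ‖lam i‖ ^ r :=
    ⟨_, rfl⟩
  obtain ⟨N2, hN2⟩ := Pool.Agent.TH286.GT.CLD.poly_exp l.length r q0 (2 * A0) μ R hμ0 hRμ
  refine ⟨N1 + N2 + l.length, fun t ht => ?_⟩
  have hkt : l.length ≤ r + q0 * t := by
    have : t ≤ q0 * t := Nat.le_mul_of_pos_left t hq0
    omega
  have h3 := hN1 t (by omega)
  have h4 := hN2 t (by omega)
  have h5 := low_bound l.length r q0 lam c S2 μ hWμ t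
  rw [← hA0] at h5
  have hseq := (hrep (r + q0 * t + 1)).2.2 (r + q0 * t) hkt (Nat.lt_succ_self _)
  rw [H.split t] at hseq
  have e1 : ∑ i ∈ S1, ∑ j ∈ range (0 + 1), c i j * ((r + q0 * t).choose j : ℂ) *
      lam i ^ (r + q0 * t) = ∑ i ∈ S1, c i 0 * lam i ^ (r + q0 * t) := by
    refine Finset.sum_congr rfl fun i _ => ?_
    rw [zero_add, Finset.sum_range_one, Nat.choose_zero_right, Nat.cast_one, mul_one]
  rw [e1] at hseq
  obtain ⟨A, hAd⟩ : ∃ A : ℂ, A = ∑ i ∈ S1, c i 0 * lam i ^ (r + q0 * t) := ⟨_, rfl⟩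
  obtain ⟨B, hBd⟩ : ∃ B : ℂ, B = ∑ i ∈ S2, ∑ j ∈ range l.length,
    c i j * ((r + q0 * t).choose j : ℂ) * lam i ^ (r + q0 * t) := ⟨_, rfl⟩
  have hAnn : 0 ≤ A.re := by
    rw [hAd, hnorm t, Complex.re_ofReal_mul]
    exact mul_nonneg (by positivity) (H.nonneg t)
  have hAR : R ^ t < ‖A‖ := by
    rw [hAd, hA2 t]
    exact h3
  rw [← hBd] at h5
  rw [← hAd, ← hBd] at hseq
  have him : A.im + B.im = 0 := by
    have := congrArg Complex.im hseq
    rw [Complex.add_im] at this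
    rw [← this]
    simp
  have hre : (seq l (r + q0 * t) : ℝ) = A.re + B.re := by
    have := congrArg Complex.re hseq
    rw [Complex.add_re] at this
    rw [← this]
    simp
  have h6 := Complex.norm_le_abs_re_add_abs_im A
  rw [abs_of_nonneg hAnn] at h6
  have h7 : |A.im| ≤ ‖B‖ := by
    have : A.im = -B.im := by linarith
    rw [this, abs_neg]
    exact Complex.abs_im_le_norm B
  have h8 := (abs_le.1 (Complex.abs_re_le_norm B)).1
  have h9 : (0 : ℝ) < (seq l (r + q0 * t) : ℝ) := by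
    rw [hre]
    linarith
  exact_mod_cast h9

end Pool.Agent.TH997.DD
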