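import Pool.Agent.TH997.DD.Stm
import Pool.Agent.H612.LR.T_KRO

/-! KRS: Kronecker's theorem with bounded gaps (helper496, job 4170). -/

set_option autoImplicit false

namespace Pool.Agent.TH997.DD

open Finset Pool.Agent.H612.LR
open scoped Classical

namespace KRS

/-- finitely many powers approximate all powers -/
theorem recur (D : Finset ℕ) (g : ℕ → ℂ) (hg : ∀ i ∈ D, ‖g i‖ = 1) (ε : ℝ) (hε : 0 < ε) :
    ∃ T0 : ℕ, ∀ N : ℕ, ∃ s, s ≤ T0 ∧ ∀ i ∈ D, ‖g i ^ N - g i ^ s‖ < ε := by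
  let x : ℕ → (D → ℂ) := fun n i => g i ^ n
  have hb : Set.range x ⊆ Metric.closedBall (0 : D → ℂ) 1 := by
    rintro _ ⟨n, rfl⟩
    rw [mem_closedBall_zero_iff, pi_norm_le_iff_of_nonneg zero_le_one]
    intro i
    rw [norm_pow, hg i.1 i.2, one_pow]
  have htb : TotallyBounded (Set.range x) :=
    (isCompact_closedBall (0 : D → ℂ) 1).totallyBounded.subset hb
  obtain ⟨t, hts, htf, hcov⟩ := Metric.finite_approx_of_totallyBounded htb ε hε
  choose! n hn using fun y (hy : y ∈ t) => hts hy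
  obtain ⟨T0, hT0⟩ := (htf.image n).bddAbove
  refine ⟨T0, fun N => ?_⟩
  have h1 := hcov (Set.mem_range_self N)
  rw [Set.mem_iUnion₂] at h1
  obtain ⟨y, hy, hd⟩ := h1
  refine ⟨n y, hT0 (Set.mem_image_of_mem n hy), fun i hi => ?_⟩
  rw [← hn y hy, Metric.mem_ball] at hd
  have h2 := lt_of_le_of_lt (dist_le_pi_dist (x N) (x (n y)) ⟨i, hi⟩) hd
  rw [dist_eq_norm] at h2
  exact h2

end KRS

theorem krs : KRS := by
  intro D g w hgw hrel ε hε
  obtain ⟨t0, -, ht0⟩ := t_KRO D g w hgw hrel (ε / 2) (by positivity) 0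
  obtain ⟨T0, hT0⟩ := KRS.recur D g (fun i hi => (hgw i hi).1) (ε / 2) (by positivity)
  refine ⟨T0 + t0, fun T => ?_⟩
  obtain ⟨s, hs, hsg⟩ := hT0 (T + T0)
  refine ⟨T + T0 - s + t0, by omega, by omega, fun i hi => ?_⟩
  have h1 := hsg i hi
  have hgi := (hgw i hi).1
  have e1 : g i ^ (T + T0) - g i ^ s = g i ^ s * (g i ^ (T + T0 - s) - 1) := by
    rw [mul_sub, ← pow_add, mul_one]
    congr 2
    omega
  rw [e1, norm_mul, norm_pow, hgi, one_pow, one_mul] at h1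
  have e2 : g i ^ (T + T0 - s + t0) - w i =
      g i ^ t0 * (g i ^ (T + T0 - s) - 1) + (g i ^ t0 - w i) := by
    rw [pow_add]
    ring
  rw [e2]
  refine (norm_add_le _ _).trans_lt ?_
  rw [norm_mul, norm_pow, hgi, one_pow, one_mul]
  have h2 := ht0 i hi
  linarith

end Pool.Agent.TH997.DD
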