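import Pool.Agent.TH997.DD.Stm
import Mathlib.NumberTheory.Height.NumberField

/-!
# LIO: Liouville's inequality for the powers of an algebraic number (helper915)
-/

set_option autoImplicit false

namespace Pool.Agent.TH997.DD

open Finset Pool.Agent.H612.LR
open scoped Classical

namespace LIO

theorem log_le_height {K : Type} [Field K] [NumberField K] (φ : K →+* ℂ) (x : K) :
    Real.log ‖φ x‖ ≤ Height.logHeight₁ x := by
  rw [NumberField.logHeight₁_eq]
  have h1 : 0 ≤ ∑ᶠ v : NumberField.FinitePlace K, Real.posLog (v x) :=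
    finsum_nonneg fun v => Real.posLog_nonneg
  have h2 : ((NumberField.InfinitePlace.mk φ).mult : ℝ) *
      Real.posLog ((NumberField.InfinitePlace.mk φ) x) ≤
      ∑ v : NumberField.InfinitePlace K, (v.mult : ℝ) * Real.posLog (v x) :=
    Finset.single_le_sum (f := fun v : NumberField.InfinitePlace K =>
      (v.mult : ℝ) * Real.posLog (v x))
      (fun v _ => mul_nonneg (Nat.cast_nonneg _) Real.posLog_nonneg)
      (Finset.mem_univ (NumberField.InfinitePlace.mk φ))
  have h3 : (1 : ℝ) ≤ ((NumberField.InfinitePlace.mk φ).mult : ℝ) := by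
    exact_mod_cast NumberField.InfinitePlace.mult_pos
  have h4 : Real.log ‖φ x‖ ≤ Real.posLog ((NumberField.InfinitePlace.mk φ) x) := by
    rw [NumberField.InfinitePlace.apply]
    exact le_max_right _ _
  have h5 : 0 ≤ Real.posLog ((NumberField.InfinitePlace.mk φ) x) := Real.posLog_nonneg
  nlinarith

theorem exp_le {K : Type} [Field K] [NumberField K] (φ : K →+* ℂ) (x : K) (hx : x ≠ 0) (A : ℝ)
    (hA : Height.logHeight₁ x ≤ A) : Real.exp (-A) ≤ ‖φ x‖ := by
  have h1 : φ x ≠ 0 := (map_ne_zero φ).2 hx
  have h2 := log_le_height φ x⁻¹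
  rw [Height.logHeight₁_inv, map_inv₀, norm_inv, Real.log_inv] at h2
  rw [← Real.le_log_iff_exp_le (norm_pos_iff.2 h1)]
  linarith

end LIO

open LIO in
theorem lio : LIO := by
  intro x hx
  have hint : IsIntegral ℚ x := hx.isIntegral
  haveI : FiniteDimensional ℚ (IntermediateField.adjoin ℚ {x}) :=
    IntermediateField.adjoin.finiteDimensional hint
  haveI : NumberField (IntermediateField.adjoin ℚ {x}) :=
    { to_charZero := inferInstance, to_finiteDimensional := inferInstance }
  set K := IntermediateField.adjoin ℚ {x}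
  set x' : K := IntermediateField.AdjoinSimple.gen ℚ x with hx'
  set φ : K →+* ℂ := algebraMap K ℂ with hφ
  have hφx : φ x' = x := IntermediateField.AdjoinSimple.algebraMap_gen ℚ x
  have hsub : ∀ a b : K, Height.logHeight₁ (a - b) ≤
      Height.totalWeight K * Real.log 2 + Height.logHeight₁ a + Height.logHeight₁ b := by
    intro a b
    exact Height.logHeight₁_sub_le a b
  refine ⟨|Height.logHeight₁ x'| + |(Height.totalWeight K : ℝ) * Real.log 2|, fun s hs hne => ?_⟩
  have h0 : x' ^ s - 1 ≠ 0 := by
    intro h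
    apply hne
    have h2 := congrArg φ h
    rw [map_sub, map_pow, map_one, map_zero, hφx] at h2
    exact sub_eq_zero.1 h2
  have hs1 : (1 : ℝ) ≤ s := by exact_mod_cast hs
  have h1 := hsub (x' ^ s) 1
  rw [Height.logHeight₁_pow, Height.logHeight₁_one] at h1
  have h2 := exp_le φ (x' ^ s - 1) h0
    ((|Height.logHeight₁ x'| + |(Height.totalWeight K : ℝ) * Real.log 2|) * s) (by
      have e1 := le_abs_self (Height.logHeight₁ x')
      have e2 := le_abs_self ((Height.totalWeight K : ℝ) * Real.log 2)
      have e3 : (s : ℝ) * Height.logHeight₁ x' ≤ s * |Height.logHeight₁ x'| := by gcongr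
      have e4 : |(Height.totalWeight K : ℝ) * Real.log 2| ≤
          s * |(Height.totalWeight K : ℝ) * Real.log 2| :=
        le_mul_of_one_le_left (abs_nonneg _) hs1
      nlinarith)
  rw [map_sub, map_pow, map_one, hφx] at h2
  exact h2

end Pool.Agent.TH997.DD
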