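import Pool.Agent.TH997.DD.Stm2
import Pool.Agent.H612.LR.T_MEAN

set_option autoImplicit false

namespace Pool.Agent.TH997.DD

open Finset Filter Topology Pool.Agent.H612.LR
open scoped Classical

theorem nv : NV := by
  intro I a hn hd ha t0 b hb hlim
  obtain ⟨μ0, hμ0, ha0⟩ := ha
  set e := I.equivFin with he
  set f : ℕ → ℂ := fun n => if h : n < I.card then (e.symm ⟨n, h⟩ : ℂ) else 0 with hf
  have hfk : ∀ k : Fin I.card, f k = (e.symm k : ℂ) := by
    intro k
    rw [hf]
    simp only [k.2, dif_pos, Fin.eta]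
  have hmem : ∀ n ∈ range I.card, f n ∈ I := by
    intro n h
    rw [mem_range] at h
    have := hfk ⟨n, h⟩
    simp only at this
    rw [this]
    exact (e.symm ⟨n, h⟩).2
  have hinj : ∀ n ∈ range I.card, ∀ n' ∈ range I.card, f n = f n' → n = n' := by
    intro n h n' h' heq
    rw [mem_range] at h h'
    have h1 := hfk ⟨n, h⟩
    have h2 := hfk ⟨n', h'⟩
    simp only at h1 h2
    rw [h1, h2] at heq
    have h3 := e.symm.injective (Subtype.ext heq)
    exact congrArg Fin.val h3
  have hsum : ∀ F : ℂ → ℂ, ∑ μ ∈ I, F μ = ∑ n ∈ range I.card, F (f n) := by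
    intro F
    rw [← Fin.sum_univ_eq_sum_range (fun n => F (f n)) I.card, ← Finset.sum_coe_sort I,
      ← Equiv.sum_comp e.symm]
    exact Finset.sum_congr rfl fun k _ => by rw [hfk]
  have key := t_MEAN (range I.card) (fun n => f n ^ b) (fun n => a (f n) * f n ^ t0)
    (fun n h => by
      rw [norm_pow, hn _ (hmem n h), one_pow])
    (fun n h n' h' heq => by
      by_contra hne
      have h1 : f n ≠ f n' := fun h2 => hne (hinj n h n' h' h2)
      exact hd _ (hmem n h) _ (hmem n' h') h1 b hb heq)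
    (by
      refine hlim.congr fun s => ?_
      rw [hsum]
      refine Finset.sum_congr rfl fun n _ => ?_
      rw [pow_add, pow_mul]
      ring)
  have h1 := key (e ⟨μ0, hμ0⟩ : ℕ) (mem_range.2 (e ⟨μ0, hμ0⟩).2)
  rw [hfk, Equiv.symm_apply_apply] at h1
  rcases mul_eq_zero.1 h1 with h2 | h2
  · exact ha0 h2
  · have h3 := hn _ hμ0
    rw [pow_eq_zero_iff'] at h2
    have h4 : μ0 = 0 := h2.1
    rw [h4] at h3
    simp at h3

end Pool.Agent.TH997.DD
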