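import Pool.Agent.TH997.DD.Stm

/-!
# REM: an exponential sum which is small on a large set of integers has small coefficients
-/

set_option autoImplicit false

namespace Pool.Agent.TH997.DD

open Finset Pool.Agent.H612.LR
open scoped Classical

namespace REM

/-- In a set of positive density some small difference occurs often. -/
theorem exists_shift (N : ℕ) (E : Finset ℕ) (ε : ℝ) (h0 : 0 < ε) (hE : E ⊆ range N)
    (hc : ε * N ≤ E.card) (hN : 4 ≤ ε * N) :
    ∃ s : ℕ, (s : ℝ) ≤ 4 / ε ∧ 1 ≤ s ∧
      ε ^ 2 / 10 * N ≤ ((E.filter (fun t => t + s ∈ E)).card : ℝ) := by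
  by_contra! H
  set S : ℕ := ⌈4 / ε⌉₊ with hS
  have hS1 : 4 / ε ≤ S := Nat.le_ceil _
  have hS2 : (S : ℝ) < 4 / ε + 1 := Nat.ceil_lt_add_one (by positivity)
  have hSpos : 0 < S := by
    have : (0 : ℝ) < S := lt_of_lt_of_le (by positivity) hS1
    exact_mod_cast this
  set F : Finset ℕ := E.filter (fun t => ∀ s, 1 ≤ s → s < S → t + s ∉ E) with hF
  have hFc : F.card ≤ N / S + 1 := by
    have : F.card ≤ (range (N / S + 1)).card := by
      apply Finset.card_le_card_of_injOn (fun t => t / S)
      · intro t ht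
        have ht' : t ∈ E := (Finset.mem_filter.mp (Finset.mem_coe.mp ht)).1
        have htN : t < N := Finset.mem_range.mp (hE ht')
        simp only [Finset.coe_range, Set.mem_Iio]
        exact Nat.lt_succ_of_le (Nat.div_le_div_right htN.le)
      · have key : ∀ t ∈ F, ∀ t' ∈ F, t / S = t' / S → ¬ t < t' := by
          intro t ht t' ht' h hlt
          have h1 := (Finset.mem_filter.mp ht).2 (t' - t) (by omega) (by
            have a1 := Nat.div_add_mod t S
            have a2 := Nat.div_add_mod t' S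
            have a3 := Nat.mod_lt t' hSpos
            rw [h] at a1
            omega)
          apply h1
          rw [Nat.add_sub_cancel' hlt.le]
          exact (Finset.mem_filter.mp ht').1
        intro t ht t' ht' h
        rcases lt_trichotomy t t' with h1 | h1 | h1
        · exact absurd h1 (key t (Finset.mem_coe.mp ht) t' (Finset.mem_coe.mp ht') h)
        · exact h1
        · exact absurd h1 (key t' (Finset.mem_coe.mp ht') t (Finset.mem_coe.mp ht) h.symm)
    simpa using this
  have hcov : E ⊆ F ∪ (Finset.Ico 1 S).biUnion (fun s => E.filter (fun t => t + s ∈ E)) := by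
    intro t ht
    by_cases h : ∀ s, 1 ≤ s → s < S → t + s ∉ E
    · exact Finset.mem_union_left _ (Finset.mem_filter.mpr ⟨ht, h⟩)
    · push Not at h
      obtain ⟨s, h1, h2, h3⟩ := h
      apply Finset.mem_union_right
      rw [Finset.mem_biUnion]
      exact ⟨s, Finset.mem_Ico.mpr ⟨h1, h2⟩, Finset.mem_filter.mpr ⟨ht, h3⟩⟩
  have hcard : (E.card : ℝ) ≤ F.card +
      ∑ s ∈ Finset.Ico 1 S, ((E.filter (fun t => t + s ∈ E)).card : ℝ) := by
    have := (Finset.card_le_card hcov).trans ((Finset.card_union_le _ _).trans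
      (Nat.add_le_add_left Finset.card_biUnion_le _))
    exact_mod_cast this
  have hsum : ∑ s ∈ Finset.Ico 1 S, ((E.filter (fun t => t + s ∈ E)).card : ℝ) ≤
      4 / ε * (ε ^ 2 / 10 * N) := by
    calc _ ≤ ∑ s ∈ Finset.Ico 1 S, (ε ^ 2 / 10 * N) := by
          apply Finset.sum_le_sum
          intro s hs
          rw [Finset.mem_Ico] at hs
          apply le_of_lt
          apply H s _ hs.1
          have : (s : ℝ) + 1 ≤ S := by exact_mod_cast hs.2
          linarith
      _ = ((S - 1 : ℕ) : ℝ) * (ε ^ 2 / 10 * N) := by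
          rw [Finset.sum_const, Nat.card_Ico, nsmul_eq_mul]
      _ ≤ _ := by
          apply mul_le_mul_of_nonneg_right _ (by positivity)
          rw [Nat.cast_sub (by omega)]
          push_cast
          linarith
  have hdiv : ((N / S : ℕ) : ℝ) ≤ ε * N / 4 := by
    calc ((N / S : ℕ) : ℝ) ≤ N / S := Nat.cast_div_le
      _ ≤ N / (4 / ε) := by
          apply div_le_div_of_nonneg_left (by positivity) (by positivity) hS1
      _ = ε * N / 4 := by
          field_simp
  have hF' : (F.card : ℝ) ≤ ε * N / 4 + 1 := by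
    calc (F.card : ℝ) ≤ ((N / S + 1 : ℕ) : ℝ) := by exact_mod_cast hFc
      _ = ((N / S : ℕ) : ℝ) + 1 := by push_cast; ring
      _ ≤ _ := by linarith
  have h4 : 4 / ε * (ε ^ 2 / 10 * N) = 2 / 5 * (ε * N) := by
    field_simp
    ring
  rw [h4] at hsum
  linarith

/-- The numerical part of the induction step. -/
theorem step_num (p : ℕ) (hp : 1 ≤ p) (B ε s x M y : ℝ) (h0 : 0 < ε) (h1 : ε ≤ 1) (hB : 1 ≤ B)
    (hx : 0 ≤ x) (hs : s ≤ 4 / ε) (hy : Real.exp (-(B * s)) ≤ y)
    (h : x * y * Real.exp (-(B * (20 / (ε ^ 2 / 10)) ^ p)) ≤ 2 * M) :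
    x * Real.exp (-(B * (20 / ε) ^ (2 * p))) ≤ M := by
  set Q : ℝ := (20 / (ε ^ 2 / 10)) ^ p with hQ
  have e1 : (20 / ε) ^ (2 * p) = 2 ^ p * Q := by
    rw [hQ, pow_mul, ← mul_pow]
    congr 1
    field_simp
    norm_num
  have hQ1 : 200 / ε ^ 2 ≤ Q := by
    have : (1 : ℝ) ≤ 20 / (ε ^ 2 / 10) := by
      rw [le_div_iff₀ (by positivity)]
      nlinarith
    calc 200 / ε ^ 2 = 20 / (ε ^ 2 / 10) := by
          field_simp
          norm_num
      _ = (20 / (ε ^ 2 / 10)) ^ 1 := (pow_one _).symm
      _ ≤ _ := pow_le_pow_right₀ this hp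
  have hQ2 : 4 / ε + 1 ≤ Q := by
    refine le_trans ?_ hQ1
    rw [le_div_iff₀ (by positivity)]
    have : (4 / ε + 1) * ε ^ 2 = 4 * ε + ε ^ 2 := by
      field_simp
    rw [this]
    nlinarith
  have h2p : (2 : ℝ) ≤ 2 ^ p := by
    calc (2 : ℝ) = 2 ^ 1 := by norm_num
      _ ≤ _ := pow_le_pow_right₀ (by norm_num) hp
  have hQ0 : 0 ≤ Q := by
    have : 0 < 4 / ε := by positivity
    linarith
  have hR : 4 / ε + 1 + Q ≤ (20 / ε) ^ (2 * p) := by
    rw [e1]
    nlinarith
  have hexp : Real.exp (-(B * (20 / ε) ^ (2 * p))) ≤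
      Real.exp (-1) * (Real.exp (-(B * s)) * Real.exp (-(B * Q))) := by
    rw [← Real.exp_add, ← Real.exp_add]
    apply Real.exp_le_exp.mpr
    have : B * (s + 1 + Q) ≤ B * (20 / ε) ^ (2 * p) := by
      apply mul_le_mul_of_nonneg_left _ (by linarith)
      linarith
    nlinarith
  have hhalf : Real.exp (-1) ≤ 1 / 2 := by
    rw [Real.exp_neg, one_div]
    apply inv_anti₀ (by norm_num)
    have := Real.add_one_le_exp (1 : ℝ)
    linarith
  calc x * Real.exp (-(B * (20 / ε) ^ (2 * p)))
      ≤ x * (Real.exp (-1) * (Real.exp (-(B * s)) * Real.exp (-(B * Q)))) :=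
        mul_le_mul_of_nonneg_left hexp hx
    _ ≤ x * (1 / 2 * (y * Real.exp (-(B * Q)))) := by
        apply mul_le_mul_of_nonneg_left _ hx
        apply mul_le_mul hhalf _ (by positivity) (by norm_num)
        exact mul_le_mul_of_nonneg_right hy (by positivity)
    _ = 1 / 2 * (x * y * Real.exp (-(B * Q))) := by ring
    _ ≤ 1 / 2 * (2 * M) := by
        apply mul_le_mul_of_nonneg_left h (by norm_num)
    _ = M := by ring

end REM

/-- REM: an exponential sum which is small on a large set has small coefficients. -/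
theorem rem : REM := by
  intro m
  induction m with
  | zero =>
    intro I a B ε M N E μ0 hI _ hμ0
    have : I = ∅ := Finset.card_eq_zero.mp (Nat.le_zero.mp hI)
    rw [this] at hμ0
    simp at hμ0
  | succ m ih =>
    intro I a B ε M N E μ0 hI hB hμ0 hI1 hSep h0 h1 hN hE hc hM
    have h20 : (1 : ℝ) ≤ 20 / ε := by
      rw [le_div_iff₀ h0]
      linarith
    have hN1 : 20 / ε ≤ N := by
      refine le_trans ?_ hN
      calc 20 / ε = (20 / ε) ^ 1 := (pow_one _).symm
        _ ≤ _ := pow_le_pow_right₀ h20 Nat.one_le_two_pow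
    have hN2 : 20 ≤ ε * N := by
      rw [div_le_iff₀ h0] at hN1
      linarith
    by_cases hν : ∃ ν ∈ I, ν ≠ μ0
    · obtain ⟨ν, hνI, hνμ⟩ := hν
      obtain ⟨s, hs4, hs1, hsc⟩ := REM.exists_shift N E ε h0 hE hc (by linarith)
      have key := ih (I.erase ν) (fun μ => a μ * (μ ^ s - ν ^ s)) B (ε ^ 2 / 10) (2 * M) N
        (E.filter (fun t => t + s ∈ E)) μ0
        (by rw [Finset.card_erase_of_mem hνI]; omega) hB
        (Finset.mem_erase.mpr ⟨hνμ.symm, hμ0⟩)
        (fun μ hμ => hI1 μ (Finset.mem_of_mem_erase hμ))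
        (fun μ hμ μ' hμ' => hSep μ (Finset.mem_of_mem_erase hμ) μ' (Finset.mem_of_mem_erase hμ'))
        (by positivity) (by nlinarith)
        (by
          refine le_trans ?_ hN
          rw [pow_succ (2 : ℕ) m, mul_comm (2 ^ m) 2, pow_mul (20 / ε) 2]
          apply pow_le_pow_left₀ (by positivity)
          rw [div_pow, div_le_div_iff₀ (by positivity) (by positivity)]
          nlinarith [sq_nonneg ε])
        ((Finset.filter_subset _ _).trans hE) hsc
        (by
          intro t ht
          rw [Finset.mem_filter] at ht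
          have hsum : ∑ μ ∈ I.erase ν, a μ * (μ ^ s - ν ^ s) * μ ^ t =
              ∑ μ ∈ I, a μ * μ ^ (t + s) - ν ^ s * ∑ μ ∈ I, a μ * μ ^ t := by
            have : ∑ μ ∈ I.erase ν, a μ * (μ ^ s - ν ^ s) * μ ^ t =
                ∑ μ ∈ I, a μ * (μ ^ s - ν ^ s) * μ ^ t := by
              apply Finset.sum_erase
              rw [sub_self]
              ring
            rw [this, Finset.mul_sum, ← Finset.sum_sub_distrib]
            apply Finset.sum_congr rfl
            intro μ _
            ring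
          rw [hsum]
          calc _ ≤ ‖∑ μ ∈ I, a μ * μ ^ (t + s)‖ + ‖ν ^ s * ∑ μ ∈ I, a μ * μ ^ t‖ :=
                norm_sub_le _ _
            _ ≤ M + 1 * M := by
                apply add_le_add (hM _ ht.2)
                rw [norm_mul, norm_pow, hI1 ν hνI, one_pow]
                exact mul_le_mul_of_nonneg_left (hM _ ht.1) (by norm_num)
            _ = 2 * M := by ring)
      rw [norm_mul] at key
      have := REM.step_num (2 ^ m) Nat.one_le_two_pow B ε s ‖a μ0‖ M ‖μ0 ^ s - ν ^ s‖ h0 h1 hB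
        (norm_nonneg _) hs4 (hSep μ0 hμ0 ν hνI hνμ.symm s hs1) key
      rw [pow_succ (2 : ℕ) m, mul_comm (2 ^ m) 2]
      exact this
    · push Not at hν
      have hIs : I = {μ0} := by
        apply Finset.eq_singleton_iff_unique_mem.mpr
        exact ⟨hμ0, hν⟩
      have hne : E.Nonempty := by
        rw [← Finset.card_pos]
        have : (0 : ℝ) < E.card := lt_of_lt_of_le (by linarith) hc
        exact_mod_cast this
      obtain ⟨t, ht⟩ := hne
      have h2 := hM t ht
      rw [hIs, Finset.sum_singleton, norm_mul, norm_pow, hI1 μ0 hμ0, one_pow, mul_one] at h2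
      calc ‖a μ0‖ * Real.exp (-(B * (20 / ε) ^ (2 ^ (m + 1)))) ≤ ‖a μ0‖ * 1 := by
            apply mul_le_mul_of_nonneg_left _ (norm_nonneg _)
            apply Real.exp_le_one_iff.mpr
            have : 0 ≤ B * (20 / ε) ^ (2 ^ (m + 1)) := by positivity
            linarith
        _ ≤ M := by linarith

end Pool.Agent.TH997.DD
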