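import Pool.Agent.TH997.DD.Stm
import Pool.Agent.H612.LR.T_VAN
import Pool.Agent.H612.LR.T_SND
import Pool.Agent.H612.LR.T_CLB

/-! RESA: the dominant part of a residue class without certificate (helper624). -/

set_option autoImplicit false

namespace Pool.Agent.TH997.DD

open Finset Pool.Agent.H612.LR
open scoped Classical

namespace RESA

/-- the indices of the class of `i` -/
noncomputable def cl (k : ℕ) (lam : ℕ → ℂ) (q0 i : ℕ) : Finset ℕ :=
  (range k).filter (fun i' => lam i' ^ q0 = lam i ^ q0)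

/-- the sums over the classes -/
noncomputable def dd (k : ℕ) (lam : ℕ → ℂ) (c : ℕ → ℕ → ℂ) (q0 r i j : ℕ) : ℂ :=
  ∑ i' ∈ cl k lam q0 i, c i' j * lam i' ^ r

lemma mem_cl {k : ℕ} {lam : ℕ → ℂ} {q0 i i' : ℕ} :
    i' ∈ cl k lam q0 i ↔ i' < k ∧ lam i' ^ q0 = lam i ^ q0 := by
  unfold cl
  rw [mem_filter, mem_range]

lemma norm_cl {lam : ℕ → ℂ} {q0 : ℕ} (hq : 1 ≤ q0) {i i' : ℕ}
    (h : lam i' ^ q0 = lam i ^ q0) : ‖lam i'‖ = ‖lam i‖ := by
  have h1 := congrArg norm h
  rw [norm_pow, norm_pow] at h1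
  exact (pow_left_inj₀ (norm_nonneg _) (norm_nonneg _) (by omega)).1 h1

/-- the sums at the other exponents of the residue class -/
lemma dd_shift (k : ℕ) (lam : ℕ → ℂ) (c : ℕ → ℕ → ℂ) (q0 r i j t : ℕ) :
    ∑ i' ∈ cl k lam q0 i, c i' j * lam i' ^ (r + q0 * t) =
      (lam i ^ q0) ^ t * dd k lam c q0 r i j := by
  unfold dd
  rw [mul_sum]
  refine sum_congr rfl fun i' hi' => ?_
  rw [pow_add, pow_mul, (mem_cl.1 hi').2]
  ring

/-- representatives of the classes -/
lemma exists_rep (k : ℕ) (lam : ℕ → ℂ) (q0 : ℕ) : ∃ κ : ℕ → ℕ,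
    (∀ i < k, κ i < k ∧ lam i ^ q0 = lam (κ i) ^ q0) ∧
    (∀ i < k, ∀ i' < k, lam i ^ q0 = lam i' ^ q0 → κ i = κ i') := by
  let f : ℂ → ℕ := fun v => if h : ∃ s, s < k ∧ lam s ^ q0 = v then Classical.choose h else 0
  have hf : ∀ i < k, f (lam i ^ q0) < k ∧ lam (f (lam i ^ q0)) ^ q0 = lam i ^ q0 := by
    intro i hi
    have h : ∃ s, s < k ∧ lam s ^ q0 = lam i ^ q0 := ⟨i, hi, rfl⟩
    have h3 : f (lam i ^ q0) = Classical.choose h := dif_pos h
    rw [h3]
    exact Classical.choose_spec h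
  refine ⟨fun i => f (lam i ^ q0), fun i hi => ⟨(hf i hi).1, (hf i hi).2.symm⟩, ?_⟩
  intro i _ i' _ h
  show f (lam i ^ q0) = f (lam i' ^ q0)
  rw [h]

end RESA

open RESA in
theorem resa : RESA := by
  intro l lam c q0 hk hRep hroot hq0 hno r
  have hlam : ∀ i < l.length, lam i ≠ 0 := (hRep 0).1
  obtain ⟨κ, hκ1, hκ2⟩ := exists_rep l.length lam q0
  set k := l.length with hkdef
  -- the fibre of `κ` over the value at `i0`
  have hfib : ∀ i0 < k, ∀ i < k, (κ i = κ i0 ↔ lam i ^ q0 = lam i0 ^ q0) := by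
    intro i0 hi0 i hi
    constructor
    · intro h
      rw [(hκ1 i hi).2, (hκ1 i0 hi0).2, h]
    · intro h
      exact hκ2 i hi i0 hi0 h
  have hnormc : ∀ {i i' : ℕ}, lam i' ^ q0 = lam i ^ q0 → ‖lam i'‖ = ‖lam i‖ :=
    fun h => norm_cl hq0 h
  -- step 1
  have hex : ∃ i0 < k, ∃ j0 < k, dd k lam c q0 r i0 j0 ≠ 0 := by
    by_contra hcon
    push Not at hcon
    let d : CD :=
      { lam := lam, c := c, ρ := 0, J := 0, m := r, q := q0, P := fun _ => 0,
        a := fun _ _ => 0, b := fun _ _ => 0, ζ := 1, ξ := fun _ => 1, x := fun _ => 1,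
        h := fun _ _ => 1, fl := fun _ => 0, κ := κ }
    refine hno d rfl rfl rfl ⟨⟨le_refl _, hq0, ?_, ?_, ?_, ?_⟩, ?_, Or.inl rfl⟩
    · intro i _
      exact Or.inl rfl
    · intro i hi
      exact hκ1 i hi
    · intro s hs j hj
      show ∑ i ∈ (d.S k 0).filter (fun i => κ i = s), c i j * lam i ^ r = 0
      have hS : d.S k 0 = range k := by
        unfold CD.S
        rw [filter_true_of_mem]
        intro i _
        rfl
      rw [hS]
      by_cases hsx : ∃ i0 < k, κ i0 = s
      · obtain ⟨i0, hi0, rfl⟩ := hsx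
        have h1 : (range k).filter (fun i => κ i = κ i0) = cl k lam q0 i0 := by
          unfold cl
          apply filter_congr
          intro i hi
          exact hfib i0 hi0 i (mem_range.1 hi)
        rw [h1]
        exact hcon i0 hi0 j hj
      · push Not at hsx
        apply sum_eq_zero
        intro i hi
        rw [mem_filter, mem_range] at hi
        exact absurd hi.2 (hsx i hi.1)
    · intro s hs j hj _
      apply sum_eq_zero
      intro i hi
      simp only [CD.S, mem_filter, mem_range, d] at hi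
      exact absurd hi.1.2 (by decide)
    · show 0 < k
      omega
  -- step 2: the modulus
  obtain ⟨i0, hi0, j0, hj0, hij0⟩ := hex
  set A : Finset ℕ := (range k).filter (fun i => ∃ j < k, dd k lam c q0 r i j ≠ 0) with hA
  have hAne : A.Nonempty := ⟨i0, mem_filter.2 ⟨mem_range.2 hi0, j0, hj0, hij0⟩⟩
  obtain ⟨i1, hi1A, hi1max⟩ := exists_max_image A (fun i => ‖lam i‖) hAne
  have hi1 : i1 < k := mem_range.1 (mem_filter.1 hi1A).1
  obtain ⟨j1, hj1, hij1⟩ := (mem_filter.1 hi1A).2
  set ρ : ℝ := ‖lam i1‖ with hρdef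
  have hρ : 0 < ρ := norm_pos_iff.2 (hlam i1 hi1)
  have hbig : ∀ i < k, ρ < ‖lam i‖ → ∀ j < k, dd k lam c q0 r i j = 0 := by
    intro i hi hlt j hj
    by_contra hne
    have := hi1max i (mem_filter.2 ⟨mem_range.2 hi, j, hj, hne⟩)
    exact absurd this (not_le.2 hlt)
  -- the degree
  set Js : Finset ℕ := (range k).filter
    (fun j => ∃ i < k, ‖lam i‖ = ρ ∧ dd k lam c q0 r i j ≠ 0) with hJs
  have hJne : Js.Nonempty := ⟨j1, mem_filter.2 ⟨mem_range.2 hj1, i1, hi1, rfl, hij1⟩⟩
  set J : ℕ := Js.max' hJne with hJ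
  have hJmem : J ∈ Js := max'_mem _ _
  have hJlt : J < k := mem_range.1 (mem_filter.1 hJmem).1
  obtain ⟨i2, hi2, hi2ρ, hi2J⟩ := (mem_filter.1 hJmem).2
  have hJmax : ∀ i < k, ‖lam i‖ = ρ → ∀ j < k, J < j → dd k lam c q0 r i j = 0 := by
    intro i hi hiρ j hj hlt
    by_contra hne
    have := le_max' Js j (mem_filter.2 ⟨mem_range.2 hj, i, hi, hiρ, hne⟩)
    exact absurd this (not_le.2 hlt)
  -- coefficients of numbers which are not roots
  have hzero : ∀ i < k, ¬ IsRoot l (lam i) → ∀ j < k, c i j = 0 := by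
    intro i hi hnr j hj
    by_contra hne
    exact hnr (hroot i hi ⟨j, hj, hne⟩)
  let fl : ℕ → ℕ := fun i => if ‖lam i‖ = ρ ∧ IsRoot l (lam i) then 1 else
    if ‖lam i‖ < ρ then 2 else 0
  let D : ℕ → CD := fun m =>
    { lam := lam, c := c, ρ := ρ, J := J, m := m, q := q0, P := fun _ => 0,
      a := fun _ _ => 0, b := fun _ _ => 0, ζ := 1, ξ := fun _ => 1, x := fun _ => 1,
      h := fun _ _ => 1, fl := fl, κ := κ }
  have hfl1 : ∀ i, fl i = 1 ↔ ‖lam i‖ = ρ ∧ IsRoot l (lam i) := by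
    intro i
    by_cases h : ‖lam i‖ = ρ ∧ IsRoot l (lam i)
    · simp only [fl, if_pos h, h, and_self]
    · simp only [fl, if_neg h]
      constructor
      · intro h1
        split_ifs at h1
        · exact absurd h1 (by norm_num)
      · intro h1
        exact absurd h1 h
  have hfl2 : ∀ i, fl i = 2 ↔ ‖lam i‖ < ρ := by
    intro i
    by_cases h : ‖lam i‖ = ρ ∧ IsRoot l (lam i)
    · simp only [fl, if_pos h]
      constructor
      · intro h1
        exact absurd h1 (by norm_num)
      · intro h1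
        exact absurd h1 (by rw [h.1]; exact lt_irrefl _)
    · simp only [fl, if_neg h]
      constructor
      · intro h1
        by_contra h2
        rw [if_neg h2] at h1
        exact absurd h1 (by norm_num)
      · intro h1
        rw [if_pos h1]
  have hfl0 : ∀ i, fl i = 0 → ¬ (‖lam i‖ = ρ ∧ IsRoot l (lam i)) ∧ ¬ ‖lam i‖ < ρ := by
    intro i h0
    constructor
    · intro h
      have := (hfl1 i).2 h
      rw [h0] at this
      exact absurd this (by norm_num)
    · intro h
      have := (hfl2 i).2 h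
      rw [h0] at this
      exact absurd this (by norm_num)
  have hflc : ∀ i, fl i = 0 ∨ fl i = 1 ∨ fl i = 2 := by
    intro i
    simp only [fl]
    split_ifs <;> simp
  have hS : ∀ m u, (D m).S k u = (range k).filter (fun i => fl i = u) := fun m u => rfl
  -- step 3: the level data
  have hlev : ∀ t : ℕ, (D (r + q0 * t)).Lev l := by
    intro t
    refine ⟨hρ.le, hq0, ?_, ?_, ?_, ?_⟩
    · intro i hi
      show fl i = 0 ∨ (fl i = 1 ∧ ‖lam i‖ = ρ ∧ IsRoot l (lam i)) ∨ (fl i = 2 ∧ ‖lam i‖ < ρ)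
      rcases hflc i with h | h | h
      · exact Or.inl h
      · exact Or.inr (Or.inl ⟨h, (hfl1 i).1 h⟩)
      · exact Or.inr (Or.inr ⟨h, (hfl2 i).1 h⟩)
    · intro i hi
      exact hκ1 i hi
    · intro s hs j hj
      show ∑ i ∈ ((range k).filter (fun i => fl i = 0)).filter (fun i => κ i = s),
        c i j * lam i ^ (r + q0 * t) = 0
      by_cases hsx : ∃ i0 < k, κ i0 = s ∧ ρ < ‖lam i0‖
      · obtain ⟨i0, hi0, rfl, hlt⟩ := hsx
        have h1 : ((range k).filter (fun i => fl i = 0)).filter (fun i => κ i = κ i0) =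
            cl k lam q0 i0 := by
          ext i
          rw [mem_filter, mem_filter, mem_range, mem_cl]
          constructor
          · rintro ⟨⟨hi, -⟩, h⟩
            exact ⟨hi, (hfib i0 hi0 i hi).1 h⟩
          · rintro ⟨hi, h⟩
            refine ⟨⟨hi, ?_⟩, (hfib i0 hi0 i hi).2 h⟩
            have hn := hnormc h
            rcases hflc i with h0 | h0 | h0
            · exact h0
            · have := ((hfl1 i).1 h0).1
              rw [hn] at this
              exact absurd this (ne_of_gt hlt)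
            · have := (hfl2 i).1 h0
              rw [hn] at this
              exact absurd this (not_lt.2 hlt.le)
        rw [h1, dd_shift, hbig i0 hi0 hlt j hj, mul_zero]
      · push Not at hsx
        apply sum_eq_zero
        intro i hi
        rw [mem_filter, mem_filter, mem_range] at hi
        obtain ⟨⟨hi, h0⟩, hs'⟩ := hi
        have h1 := hsx i hi hs'
        have h2 := hfl0 i h0
        have h3 : ‖lam i‖ = ρ := le_antisymm h1 (not_lt.1 h2.2)
        have h4 : ¬ IsRoot l (lam i) := fun h => h2.1 ⟨h3, h⟩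
        rw [hzero i hi h4 j hj, zero_mul]
    · intro s hs j hj hJj
      show ∑ i ∈ ((range k).filter (fun i => fl i = 1)).filter (fun i => κ i = s),
        c i j * lam i ^ (r + q0 * t) = 0
      by_cases hsx : ∃ i0 < k, κ i0 = s ∧ fl i0 = 1
      · obtain ⟨i0, hi0, rfl, hf⟩ := hsx
        have hρ0 := ((hfl1 i0).1 hf).1
        have h1 : ∑ i ∈ ((range k).filter (fun i => fl i = 1)).filter (fun i => κ i = κ i0),
            c i j * lam i ^ (r + q0 * t) = ∑ i ∈ cl k lam q0 i0, c i j * lam i ^ (r + q0 * t) := by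
          apply sum_subset
          · intro i hi
            rw [mem_filter, mem_filter, mem_range] at hi
            exact mem_cl.2 ⟨hi.1.1, (hfib i0 hi0 i hi.1.1).1 hi.2⟩
          · intro i hi hni
            rw [mem_cl] at hi
            have hnr : ¬ IsRoot l (lam i) := by
              intro hr
              apply hni
              rw [mem_filter, mem_filter, mem_range]
              exact ⟨⟨hi.1, (hfl1 i).2 ⟨(hnormc hi.2).trans hρ0, hr⟩⟩,
                (hfib i0 hi0 i hi.1).2 hi.2⟩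
            rw [hzero i hi.1 hnr j hj, zero_mul]
        rw [h1, dd_shift, hJmax i0 hi0 hρ0 j hj hJj, mul_zero]
      · push Not at hsx
        apply sum_eq_zero
        intro i hi
        rw [mem_filter, mem_filter, mem_range] at hi
        exact absurd hi.1.2 (hsx i hi.1.1 hi.2)
  set S1 : Finset ℕ := (range k).filter (fun i => fl i = 1) with hS1
  set S2 : Finset ℕ := (range k).filter (fun i => fl i = 2) with hS2
  refine ⟨ρ, J, S1, S2, ⟨hρ, hJlt, ?_, ?_, ?_, ?_, ?_⟩⟩
  · intro i hi
    rw [hS1, mem_filter, mem_range] at hi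
    exact ⟨hi.1, (hfl1 i).1 hi.2⟩
  · intro i hi
    rw [hS2, mem_filter, mem_range] at hi
    exact ⟨hi.1, (hfl2 i).1 hi.2⟩
  · intro t
    have h0 := hlev 0
    rw [mul_zero, add_zero] at h0
    exact snd_split t_VAN l (D r) h0 hJlt t
  · intro t
    by_contra hneg
    rw [not_le] at hneg
    exact hno (D (r + q0 * t)) rfl rfl rfl ⟨hlev t, hJlt, Or.inr hneg⟩
  · by_contra hcon
    push Not at hcon
    have hρc : (ρ : ℂ) ≠ 0 := by exact_mod_cast hρ.ne'
    have h1 : ∀ t : ℕ, ∑ i ∈ S1, (c i J * (lam i / (ρ : ℂ)) ^ r) * ((lam i / (ρ : ℂ)) ^ q0) ^ t =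
        0 := by
      intro t
      rw [← hcon t]
      refine sum_congr rfl fun i _ => ?_
      rw [pow_add, pow_mul]
      ring
    have h2 := CLBaux.group S1 _ _ h1 ((lam i2 / (ρ : ℂ)) ^ q0)
    apply hi2J
    have h3 : dd k lam c q0 r i2 J = (ρ : ℂ) ^ r *
        ∑ i ∈ S1.filter (fun i => (lam i / (ρ : ℂ)) ^ q0 = (lam i2 / (ρ : ℂ)) ^ q0),
          c i J * (lam i / (ρ : ℂ)) ^ r := by
      unfold dd
      rw [mul_sum]
      symm
      have h4 : ∀ i, (lam i / (ρ : ℂ)) ^ q0 = (lam i2 / (ρ : ℂ)) ^ q0 ↔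
          lam i ^ q0 = lam i2 ^ q0 := by
        intro i
        rw [div_pow, div_pow, div_left_inj' (pow_ne_zero _ hρc)]
      have h5 : ∀ i, (ρ : ℂ) ^ r * (c i J * (lam i / (ρ : ℂ)) ^ r) = c i J * lam i ^ r := by
        intro i
        rw [div_pow]
        field_simp
      rw [sum_congr rfl (fun i _ => h5 i)]
      apply sum_subset
      · intro i hi
        rw [mem_filter, hS1, mem_filter, mem_range, h4] at hi
        exact mem_cl.2 ⟨hi.1.1, hi.2⟩
      · intro i hi hni
        rw [mem_cl] at hi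
        have hnr : ¬ IsRoot l (lam i) := by
          intro hr
          apply hni
          rw [mem_filter, hS1, mem_filter, mem_range, h4]
          exact ⟨⟨hi.1, (hfl1 i).2 ⟨(hnormc hi.2).trans hi2ρ, hr⟩⟩, hi.2⟩
        rw [hzero i hi.1 hnr J hJlt, zero_mul]
    rw [h3, h2, mul_zero]

end Pool.Agent.TH997.DD
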