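import Pool.Agent.TH997.DD.Stm
import Pool.Agent.H612.LR.T_ROOT

/-!
# RESC: the dominant part as an exponential sum with separated bases
-/

set_option autoImplicit false

namespace Pool.Agent.TH997.DD

open Finset Pool.Agent.H612.LR
open scoped Classical

namespace RESC

theorem isAlgebraic_of_isRoot (l : Rec) (hl : 1 ≤ l.length) (z : ℂ) (hz : IsRoot l z) :
    IsAlgebraic ℚ z :=
  ⟨chi l, (chi_monic' l hl).ne_zero, (isRoot_iff_aeval' l z).1 hz⟩

theorem norm_sub_pow (μ ν : ℂ) (hν : ‖ν‖ = 1) (s : ℕ) :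
    ‖μ ^ s - ν ^ s‖ = ‖(μ / ν) ^ s - 1‖ := by
  have hν0 : ν ≠ 0 := by
    intro h
    rw [h, norm_zero] at hν
    exact zero_ne_one hν
  have h1 : μ ^ s - ν ^ s = ν ^ s * ((μ / ν) ^ s - 1) := by
    have h2 : ν ^ s * (μ / ν) ^ s = μ ^ s := by
      rw [← mul_pow, mul_div_cancel₀ μ hν0]
    rw [mul_sub, h2, mul_one]
  rw [h1, norm_mul, norm_pow, hν, one_pow, one_mul]

end RESC

open RESC in
theorem resc : LIO → RESC := by
  intro hL l lam c q0 r ρ J S1 S2 hl hq hTOR hC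
  have hρ := hC.rho
  have hρc : (ρ : ℂ) ≠ 0 := by exact_mod_cast hρ.ne'
  set v : ℕ → ℂ := fun i => (lam i / (ρ : ℂ)) ^ q0 with hv
  have hlam0 : ∀ i ∈ S1, lam i ≠ 0 := by
    intro i hi h
    have h1 := (hC.s1 i hi).2.1
    rw [h, norm_zero] at h1
    exact hρ.ne h1
  have hg1 : ∀ i ∈ S1, ‖lam i / (ρ : ℂ)‖ = 1 := by
    intro i hi
    have h1 := (hC.s1 i hi).2.1
    rw [norm_div, h1, Complex.norm_real, Real.norm_of_nonneg hρ.le, div_self hρ.ne']
  have hv1 : ∀ i ∈ S1, ‖v i‖ = 1 := by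
    intro i hi
    simp only [hv]
    rw [norm_pow, hg1 i hi, one_pow]
  have hquot : ∀ i ∈ S1, ∀ i' ∈ S1, v i / v i' = (lam i / lam i') ^ q0 := by
    intro i hi i' hi'
    have h1 := hlam0 i hi
    have h2 := hlam0 i' hi'
    simp only [hv]
    rw [← div_pow]
    congr 1
    field_simp
  have halg : ∀ i ∈ S1, IsAlgebraic ℚ (lam i) := fun i hi =>
    isAlgebraic_of_isRoot l hl _ (hC.s1 i hi).2.2
  have hB : ∀ p : ℕ × ℕ, ∃ B : ℝ, p.1 ∈ S1 → p.2 ∈ S1 → ∀ s : ℕ, 1 ≤ s →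
      ((lam p.1 / lam p.2) ^ q0) ^ s ≠ 1 →
      Real.exp (-(B * s)) ≤ ‖((lam p.1 / lam p.2) ^ q0) ^ s - 1‖ := by
    intro p
    by_cases h : p.1 ∈ S1 ∧ p.2 ∈ S1
    · obtain ⟨B, hB⟩ := hL ((lam p.1 / lam p.2) ^ q0)
        (((halg p.1 h.1).mul (halg p.2 h.2).inv).pow q0)
      exact ⟨B, fun _ _ => hB⟩
    · exact ⟨0, fun h1 h2 => absurd ⟨h1, h2⟩ h⟩
  choose B hB using hB
  set I : Finset ℂ := S1.image v with hI
  set a : ℂ → ℂ := fun μ => ∑ i ∈ S1.filter (fun i => v i = μ), c i J * (lam i / (ρ : ℂ)) ^ r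
    with ha
  have hsum : ∀ t : ℕ, ∑ i ∈ S1, c i J * (lam i / (ρ : ℂ)) ^ (r + q0 * t) =
      ∑ μ ∈ I, a μ * μ ^ t := by
    intro t
    rw [← Finset.sum_fiberwise_of_maps_to (s := S1) (t := I) (g := v)
      (fun i hi => Finset.mem_image_of_mem v hi)]
    apply Finset.sum_congr rfl
    intro μ _
    simp only [ha]
    rw [Finset.sum_mul]
    apply Finset.sum_congr rfl
    intro i hi
    have h1 : v i = μ := (Finset.mem_filter.1 hi).2
    rw [← h1]
    simp only [hv]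
    rw [pow_add, pow_mul]
    ring
  refine ⟨I, a, ∑ p ∈ S1 ×ˢ S1, |B p|, ?_, ?_, ?_, ?_, hsum⟩
  · refine le_trans Finset.card_image_le ?_
    have h1 : S1 ⊆ range l.length := fun i hi => Finset.mem_range.2 (hC.s1 i hi).1
    simpa using Finset.card_le_card h1
  · intro μ hμ
    obtain ⟨i, hi, rfl⟩ := Finset.mem_image.1 hμ
    exact hv1 i hi
  · intro μ hμ ν hν hne s hs
    obtain ⟨i, hi, rfl⟩ := Finset.mem_image.1 hμ
    obtain ⟨i', hi', rfl⟩ := Finset.mem_image.1 hν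
    rw [norm_sub_pow _ _ (hv1 i' hi') s, hquot i hi i' hi']
    have hx : ((lam i / lam i') ^ q0) ^ s ≠ 1 := by
      intro hx
      apply hne
      have h2 := hlam0 i' hi'
      rw [← pow_mul, div_pow, div_eq_one_iff_eq (pow_ne_zero _ h2), mul_comm q0 s, pow_mul,
        pow_mul] at hx
      have h3 : lam i ^ (s * q0) = lam i' ^ (s * q0) := by
        rw [pow_mul, pow_mul]
        exact hx
      have h4 := hTOR (lam i) (lam i') (hC.s1 i hi).2.2 (hC.s1 i' hi').2.2 (hlam0 i hi) h2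
        (s * q0) (Nat.mul_pos hs hq) h3
      simp only [hv]
      rw [div_pow, div_pow, h4]
    refine le_trans ?_ (hB (i, i') hi hi' s hs hx)
    apply Real.exp_le_exp.2
    have h5 : B (i, i') ≤ ∑ p ∈ S1 ×ˢ S1, |B p| := by
      refine le_trans (le_abs_self _) ?_
      exact Finset.single_le_sum (f := fun p => |B p|) (fun p _ => abs_nonneg (B p))
        (Finset.mem_product.2 ⟨hi, hi'⟩)
    have h6 : (0 : ℝ) ≤ s := Nat.cast_nonneg s
    nlinarith [mul_le_mul_of_nonneg_right h5 h6]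
  · by_contra hcon
    push Not at hcon
    obtain ⟨t, ht⟩ := hC.ne
    apply ht
    rw [hsum t]
    apply Finset.sum_eq_zero
    intro μ hμ
    rw [hcon μ hμ, zero_mul]

end Pool.Agent.TH997.DD
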