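import Pool.Agent.TH997.DD.Stm
import Pool.Agent.H612.LR.T_CORE
import Pool.Agent.H612.LR.T_LIN
import Pool.Agent.H612.LR.T_MAS
import Pool.Agent.H612.LR.T_MASK
import Pool.Agent.H612.LR.T_DIR
import Pool.Agent.H612.LR.T_HLOW
import Pool.Agent.H612.LR.T_TORK
import Pool.Agent.H612.LR.T_FLD
import Pool.Agent.H612.LR.T_HROOT
import Pool.Agent.H612.LR.T_ASY
import Pool.Agent.H612.LR.T_VAN
import Pool.Agent.H612.LR.T_RPU
import Pool.Agent.H612.LR.T_SND

/-!
# SNDS: a certificate gives a syndetic set of nonpositive terms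

The proof of `t_SND` with the form of Kronecker's theorem with bounded gaps.
-/

set_option autoImplicit false

namespace Pool.Agent.TH997.DD

open Finset Pool.Agent.H612.LR
open scoped Classical

namespace SNDS

theorem aux (h1 : S_CORE) (h2 : S_LIN) (h3 : S_MAS) (h4 : KRS) (h5 : S_ASY) (h6 : S_VAN)
    (h7 : S_RPU) : Pool.Agent.TH997.DD.SNDS := by
  obtain ⟨C, hC⟩ := h3
  refine ⟨C + 4, ?_⟩
  rintro l Nb hl ⟨d, hd⟩
  have hrep := h7 l d.lam d.c hl hd.rep
  obtain ⟨hl0, -, -⟩ := hrep 0
  have hseq : ∀ n, l.length ≤ n → ((seq l n : ℚ) : ℂ) = expo l.length d.lam d.c n :=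
    fun n hn => (hrep (n + 1)).2.2 n hn (Nat.lt_succ_self n)
  have hlev := hd.lev
  have hq1 := hlev.q1
  have hkey : ∀ t, l.length ≤ t → ((seq l (d.m + d.q * t) : ℚ) : ℂ) =
      expo l.length d.lam d.c (d.m + d.q * t) := fun t ht => by
    have : t ≤ d.q * t := Nat.le_mul_of_pos_left _ hq1
    exact hseq _ (by omega)
  have hS1 : ∀ i ∈ d.S l.length 1, i < l.length ∧ ‖d.lam i‖ = d.ρ ∧ IsRoot l (d.lam i) := by
    intro i hi
    unfold CD.S at hi
    rw [Finset.mem_filter, Finset.mem_range] at hi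
    rcases hlev.flag i hi.1 with h | ⟨-, h⟩ | ⟨h, -⟩
    · omega
    · exact ⟨hi.1, h⟩
    · omega
  have hS2 : ∀ i ∈ d.S l.length 2, ‖d.lam i‖ < d.ρ := by
    intro i hi
    unfold CD.S at hi
    rw [Finset.mem_filter, Finset.mem_range] at hi
    rcases hlev.flag i hi.1 with h | ⟨h, -⟩ | ⟨-, h⟩
    · omega
    · omega
    · exact h
  by_cases hρ : d.ρ = 0
  · -- no dominant part at all
    have e1 : d.S l.length 1 = ∅ := by
      rw [Finset.eq_empty_iff_forall_notMem]
      intro i hi
      have := hS1 i hi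
      rw [hρ, norm_eq_zero] at this
      exact hl0 i this.1 this.2.1
    have e2 : d.S l.length 2 = ∅ := by
      rw [Finset.eq_empty_iff_forall_notMem]
      intro i hi
      have := hS2 i hi
      rw [hρ] at this
      exact absurd this (not_lt.mpr (norm_nonneg _))
    refine ⟨d.m + d.q * (1 + l.length), fun N => ?_⟩
    have h := hkey (N / d.q + 1 + l.length) (Nat.le_add_left _ _)
    rw [snd_split h6 l d hlev hd.jlt, e1, e2, Finset.sum_empty, Finset.sum_empty, add_zero] at h
    have h' : seq l (d.m + d.q * (N / d.q + 1 + l.length)) = 0 := by exact_mod_cast h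
    have g1 : N < d.q * (N / d.q + 1) := Nat.lt_mul_div_succ N hq1
    have g2 : d.q * (N / d.q) ≤ N := Nat.mul_div_le N d.q
    refine ⟨d.m + d.q * (N / d.q + 1 + l.length), ?_, ?_, h'.le⟩
    · have : d.q * (N / d.q + 1 + l.length) = d.q * (N / d.q + 1) + d.q * l.length := by ring
      omega
    · have : d.q * (N / d.q + 1 + l.length) = d.q * (N / d.q) + d.q * (1 + l.length) := by ring
      omega
  · have hρ' : 0 < d.ρ := lt_of_le_of_ne hlev.rho (Ne.symm hρ)
    obtain ⟨hch, hx, hneg⟩ := hd.neg.resolve_left hρ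
    set D := d.S l.length 1 with hD
    set g : ℕ → ℂ := fun i => d.lam i / (d.ρ : ℂ) with hg
    have hgn : ∀ i ∈ D, ‖g i‖ = 1 := by
      intro i hi
      simp only [hg]
      rw [norm_div, (hS1 i hi).2.1, Complex.norm_real, Real.norm_of_nonneg hρ'.le, div_self hρ]
    have hg0 : ∀ i ∈ D, g i ≠ 0 := by
      intro i hi h
      have := hgn i hi
      rw [h, norm_zero] at this
      exact zero_ne_one this
    have hcard : D.card ≤ l.length :=
      (Finset.card_filter_le _ _).trans (by rw [Finset.card_range])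
    -- (a)
    have hA : ∀ e : ℕ → ℤ, mon D g e = 1 → ∀ j < l.length, d.ξ j ≠ 1 →
        ∑ i ∈ D, e i * ((d.a j i : ℤ) - (d.b j i : ℤ)) = 0 := by
      intro e he j hj hξ
      refine h2 D g (2 ^ (C * sz l ^ C)) (fun i => (d.a j i : ℤ) - (d.b j i : ℤ)) hg0 ?_ ?_ e he
      · intro e he hne
        exact hC l hl D d.lam d.ρ hρ' hcard (fun i hi => ⟨(hS1 i hi).2.2, (hS1 i hi).2.1⟩) e he hne
      · intro e he hB
        refine h1 l.length d.q ((C + 4) * sz l ^ (C + 4)) D g d.P d.a d.b d.ζ d.ξ d.h hq1 hch e he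
          ?_ j hj hξ
        have hsum : ∑ i ∈ D, |e i| ≤ (l.length : ℤ) * 2 ^ (C * sz l ^ C) := by
          calc ∑ i ∈ D, |e i| ≤ ∑ i ∈ D, (2 : ℤ) ^ (C * sz l ^ C) := Finset.sum_le_sum hB
            _ = (D.card : ℤ) * 2 ^ (C * sz l ^ C) := by rw [Finset.sum_const, nsmul_eq_mul]
            _ ≤ _ := by
              apply mul_le_mul_of_nonneg_right _ (by positivity)
              exact_mod_cast hcard
        have hexp : (8 : ℤ) * ((l.length : ℤ) * 2 ^ (C * sz l ^ C)) ≤
            2 ^ ((C + 4) * sz l ^ (C + 4)) := by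
          exact_mod_cast snd_exp C (sz l) l.length hl (snd_sz l)
        linarith
    -- (b)
    have hζ0 : d.ζ ≠ 0 := by
      intro h
      have := hch.root
      rw [h, zero_pow (by omega)] at this
      exact zero_ne_one this
    have hζn : ‖d.ζ‖ = 1 := by
      have := congrArg norm hch.root
      rw [norm_pow, norm_one] at this
      exact (pow_eq_one_iff_of_nonneg (norm_nonneg _) (by omega)).mp this
    have hx0 : ∀ j < l.length, d.x j ≠ 0 := by
      intro j hj h
      have := (hx j hj).1
      rw [h, norm_zero] at this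
      exact zero_ne_one this
    have hξ0 : ∀ j < l.length, d.ξ j ≠ 0 := by
      intro j hj h
      have := hch.unit j hj
      rw [h, norm_zero] at this
      exact zero_ne_one this
    set y : ℕ → ℂ := fun j => d.x j / d.ξ j ^ d.m with hy
    have hy0 : ∀ j < l.length, y j ≠ 0 := fun j hj => div_ne_zero (hx0 j hj) (pow_ne_zero _ (hξ0 j hj))
    have hyn : ∀ j < l.length, ‖y j‖ = 1 := by
      intro j hj
      simp only [hy]
      rw [norm_div, norm_pow, (hx j hj).1, hch.unit j hj, one_pow, div_one]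
    set w : ℕ → ℂ := fun i => ∏ j ∈ Finset.range l.length, y j ^ ((d.a j i : ℤ) - (d.b j i : ℤ))
      with hw
    have hz : ∀ i ∈ D, d.z l.length i = g i ^ d.m * w i := by
      intro i hi
      rw [snd_chain hch i hi]
      unfold CD.z
      simp only [hw]
      rw [mul_pow, ← Finset.prod_pow, mul_assoc, ← Finset.prod_mul_distrib]
      congr 1
      · rw [← pow_mul, ← pow_mul, mul_comm]
      · refine Finset.prod_congr rfl fun j hj => ?_
        rw [Finset.mem_range] at hj
        rw [snd_pw _ (hx j hj).1, snd_pw _ (hch.unit j hj)]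
        simp only [hy]
        rw [div_zpow, ← zpow_natCast (d.ξ j ^ ((d.a j i : ℤ) - (d.b j i : ℤ))) d.m,
          ← zpow_natCast (d.ξ j) d.m, ← zpow_mul, ← zpow_mul, mul_comm (d.m : ℤ)]
        have h0 : d.ξ j ^ (((d.a j i : ℤ) - (d.b j i : ℤ)) * (d.m : ℤ)) ≠ 0 :=
          zpow_ne_zero _ (hξ0 j hj)
        field_simp
    have hwn : ∀ i ∈ D, ‖w i‖ = 1 := by
      intro i _
      simp only [hw]
      rw [norm_prod]
      refine Finset.prod_eq_one fun j hj => ?_
      rw [norm_zpow, hyn j (Finset.mem_range.mp hj), one_zpow]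
    have hrel : ∀ e : ℕ → ℤ, mon D (fun i => g i ^ d.q) e = 1 → mon D w e = 1 := by
      intro e he
      have he' : mon D g (fun i => (d.q : ℤ) * e i) = 1 := by
        rw [← he]
        unfold mon
        refine Finset.prod_congr rfl fun i _ => ?_
        rw [zpow_mul, zpow_natCast]
      have h0 : ∀ j < l.length, d.ξ j ≠ 1 →
          ∑ i ∈ D, e i * ((d.a j i : ℤ) - (d.b j i : ℤ)) = 0 := by
        intro j hj hξ
        have := hA _ he' j hj hξ
        simp only [mul_assoc] at this
        rw [← Finset.mul_sum] at this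
        rcases mul_eq_zero.mp this with h | h
        · exfalso
          have : d.q = 0 := by exact_mod_cast h
          omega
        · exact h
      unfold mon
      simp only [hw]
      calc ∏ i ∈ D, (∏ j ∈ Finset.range l.length, y j ^ ((d.a j i : ℤ) - (d.b j i : ℤ))) ^ e i
          = ∏ i ∈ D, ∏ j ∈ Finset.range l.length,
              y j ^ (e i * ((d.a j i : ℤ) - (d.b j i : ℤ))) := by
            refine Finset.prod_congr rfl fun i _ => ?_
            rw [← Finset.prod_zpow]
            refine Finset.prod_congr rfl fun j _ => ?_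
            rw [← zpow_mul, mul_comm]
        _ = ∏ j ∈ Finset.range l.length, ∏ i ∈ D,
              y j ^ (e i * ((d.a j i : ℤ) - (d.b j i : ℤ))) := Finset.prod_comm
        _ = 1 := by
            refine Finset.prod_eq_one fun j hj => ?_
            rw [Finset.mem_range] at hj
            by_cases hξ : d.ξ j = 1
            · have : y j = 1 := by
                simp only [hy]
                rw [(hx j hj).2 hξ, hξ, one_pow, div_one]
              simp [this]
            · rw [snd_prod_zpow _ (hy0 j hj), h0 j hj hξ, zpow_zero]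
    -- (c)
    set R := (∑ i ∈ D, d.c i d.J * d.z l.length i).re with hR
    set δ := -R / 2 with hδ
    have hδ0 : 0 < δ := by rw [hδ]; linarith
    obtain ⟨T', hT'⟩ := h5 l.length D (d.S l.length 2) d.lam d.c d.ρ δ d.J hρ' hδ0 hd.jlt
      (fun i hi => (hS1 i hi).2.1) hS2
    set ε := δ / (1 + ∑ i ∈ D, ‖d.c i d.J‖) with hε
    have hden : 0 < 1 + ∑ i ∈ D, ‖d.c i d.J‖ := by
      have := Finset.sum_nonneg (s := D) (f := fun i => ‖d.c i d.J‖) fun i _ => norm_nonneg _
      linarith
    have hε0 : 0 < ε := div_pos hδ0 hden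
    obtain ⟨b0, hb0⟩ := h4 D (fun i => g i ^ d.q) w (fun i hi =>
      ⟨by rw [norm_pow, hgn i hi, one_pow], hwn i hi⟩) hrel ε hε0
    refine ⟨d.m + d.q * (1 + T' + l.length + b0), fun N => ?_⟩
    obtain ⟨t, ht, ht2, hclose⟩ := hb0 (N / d.q + 1 + T' + l.length)
    have htq : t ≤ d.q * t := Nat.le_mul_of_pos_left _ hq1
    have g1 : N < d.q * (N / d.q + 1) := Nat.lt_mul_div_succ N hq1
    have g2 : d.q * (N / d.q) ≤ N := Nat.mul_div_le N d.q
    generalize N / d.q = Q at ht ht2 g1 g2
    refine ⟨d.m + d.q * t, ?_, ?_, ?_⟩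
    · have e1 : d.q * (Q + 1) ≤ d.q * t := Nat.mul_le_mul_left _ (by omega)
      omega
    · have e1 : d.q * t ≤ d.q * (Q + 1 + T' + l.length + b0) := Nat.mul_le_mul_left _ ht2
      have e2 : d.q * (Q + 1 + T' + l.length + b0) =
          d.q * Q + d.q * (1 + T' + l.length + b0) := by ring
      omega
    have hre : (∑ i ∈ D, d.c i d.J * (d.lam i / (d.ρ : ℂ)) ^ (d.m + d.q * t)).re ≤ -δ := by
      have hdiff : ‖∑ i ∈ D, d.c i d.J * (d.lam i / (d.ρ : ℂ)) ^ (d.m + d.q * t) -
          ∑ i ∈ D, d.c i d.J * d.z l.length i‖ ≤ δ := by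
        rw [← Finset.sum_sub_distrib]
        calc ‖∑ i ∈ D, (d.c i d.J * (d.lam i / (d.ρ : ℂ)) ^ (d.m + d.q * t) -
              d.c i d.J * d.z l.length i)‖
            ≤ ∑ i ∈ D, ‖d.c i d.J * (d.lam i / (d.ρ : ℂ)) ^ (d.m + d.q * t) -
              d.c i d.J * d.z l.length i‖ := norm_sum_le _ _
          _ ≤ ∑ i ∈ D, ‖d.c i d.J‖ * ε := by
              refine Finset.sum_le_sum fun i hi => ?_
              have e1 : d.c i d.J * (d.lam i / (d.ρ : ℂ)) ^ (d.m + d.q * t) -
                  d.c i d.J * d.z l.length i =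
                  d.c i d.J * (g i ^ d.m * ((g i ^ d.q) ^ t - w i)) := by
                rw [hz i hi]
                simp only [hg]
                rw [pow_add, pow_mul]
                ring
              rw [e1, norm_mul, norm_mul, norm_pow, hgn i hi, one_pow, one_mul]
              exact mul_le_mul_of_nonneg_left (hclose i hi).le (norm_nonneg _)
          _ = (∑ i ∈ D, ‖d.c i d.J‖) * ε := by rw [Finset.sum_mul]
          _ ≤ (1 + ∑ i ∈ D, ‖d.c i d.J‖) * ε := by
              apply mul_le_mul_of_nonneg_right _ hε0.le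
              linarith
          _ = δ := by
              rw [hε]
              field_simp
      have h := (Complex.abs_re_le_norm _).trans hdiff
      rw [Complex.sub_re, abs_le] at h
      have h2 := h.2
      have : R = -2 * δ := by rw [hδ]; ring
      rw [← hR] at h2
      linarith
    have hfin := hT' (d.m + d.q * t) (by omega) hre
    rw [← snd_split h6 l d hlev hd.jlt t, ← hkey t (by omega)] at hfin
    have hre' : (((seq l (d.m + d.q * t) : ℚ) : ℂ)).re = ((seq l (d.m + d.q * t) : ℚ) : ℝ) := by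
      rw [← Complex.ofReal_ratCast, Complex.ofReal_re]
    rw [hre'] at hfin
    have : seq l (d.m + d.q * t) < 0 := by exact_mod_cast hfin
    exact this.le

end SNDS

theorem snds : KRS → SNDS := fun h4 =>
  SNDS.aux t_CORE t_LIN (t_MAS (t_MASK t_DIR t_HLOW t_TORK) t_FLD t_HROOT) h4 t_ASY t_VAN t_RPU

end Pool.Agent.TH997.DD
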