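import Pool.Agent.TH997.DD.Stm2

/-!
# Tame progressions
-/

set_option autoImplicit false

namespace Pool.Agent.TH997.DD

open Finset Filter Topology Pool.Agent.H612.LR
open scoped Classical

namespace TAM

lemma tend (r : ℝ) (hr0 : 0 ≤ r) (hr : r < 1) (q : ℕ) :
    Tendsto (fun t : ℕ => r ^ t * ((t : ℝ) + 1) ^ q) atTop (𝓝 0) := by
  rcases hr0.eq_or_lt with h | h
  · subst h
    apply tendsto_const_nhds.congr'
    filter_upwards [eventually_gt_atTop 0] with t ht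
    rw [zero_pow ht.ne', zero_mul]
  · have h1 := tendsto_pow_const_mul_const_pow_of_abs_lt_one q (r := r) (by
      rw [abs_of_nonneg hr0]; exact hr)
    have h2 := (tendsto_add_atTop_iff_nat 1).2 h1
    have h3 := h2.const_mul (r⁻¹)
    rw [mul_zero] at h3
    refine h3.congr fun t => ?_
    push_cast
    rw [pow_succ r t]
    field_simp

lemma cmp {α β x y : ℝ} {p q : ℕ} (hα : 0 < α) (hx : 0 < x) (hy : 0 < y)
    (h : ∀ T : ℕ, ∃ t, T ≤ t ∧ α * (x ^ t * ((t : ℝ) + 1) ^ p) ≤ β * (y ^ t * ((t : ℝ) + 1) ^ q)) :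
    x < y ∨ (x = y ∧ p ≤ q) := by
  by_contra hcon
  push Not at hcon
  obtain ⟨h1, h2⟩ := hcon
  have key : ∀ᶠ t : ℕ in atTop,
      β * (y ^ t * ((t : ℝ) + 1) ^ q) < α * (x ^ t * ((t : ℝ) + 1) ^ p) := by
    rcases h1.eq_or_lt with h3 | h3
    · have h4 := h2 h3.symm
      have h5 : ∀ᶠ t : ℕ in atTop, β / α < (t : ℝ) :=
        tendsto_natCast_atTop_atTop.eventually (eventually_gt_atTop (β / α))
      filter_upwards [h5] with t ht
      subst h3
      have h6 : β < α * ((t : ℝ) + 1) := by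
        rw [div_lt_iff₀ hα] at ht
        nlinarith
      have h7 : ((t : ℝ) + 1) ^ (q + 1) ≤ ((t : ℝ) + 1) ^ p :=
        pow_le_pow_right₀ (by linarith [Nat.cast_nonneg (α := ℝ) t]) h4
      have h8 : 0 < y ^ t * ((t : ℝ) + 1) ^ q := by positivity
      calc β * (y ^ t * ((t : ℝ) + 1) ^ q)
          < α * ((t : ℝ) + 1) * (y ^ t * ((t : ℝ) + 1) ^ q) := mul_lt_mul_of_pos_right h6 h8
        _ = α * (y ^ t * ((t : ℝ) + 1) ^ (q + 1)) := by ring
        _ ≤ _ := by gcongr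
    · have h4 := (tend (y / x) (by positivity) (by rw [div_lt_one hx]; exact h3) q).const_mul β
      rw [mul_zero] at h4
      filter_upwards [h4.eventually (gt_mem_nhds hα)] with t ht
      have h5 : (0:ℝ) < x ^ t := by positivity
      have h6 : (1:ℝ) ≤ ((t : ℝ) + 1) ^ p :=
        one_le_pow₀ (by linarith [Nat.cast_nonneg (α := ℝ) t])
      rw [div_pow, div_mul_eq_mul_div, mul_div_assoc', div_lt_iff₀ h5] at ht
      calc _ < α * x ^ t := ht
        _ = α * (x ^ t * 1) := by ring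
        _ ≤ _ := by gcongr
  obtain ⟨T, hT⟩ := eventually_atTop.1 key
  obtain ⟨t, ht1, ht2⟩ := h T
  exact absurd (hT t ht1) (not_lt.2 ht2)

lemma main (u D : ℕ → ℝ) (H : ℕ → ℂ) (R A B C M : ℝ) (J T0 : ℕ) (hR : 0 < R) (hB : 0 < B)
    (hD : ∀ t, T0 ≤ t → B * (R ^ t * ((t : ℝ) + 1) ^ J) ≤ D t ∧
      D t ≤ A * (R ^ t * ((t : ℝ) + 1) ^ J))
    (hC : 0 ≤ C) (hw : ∀ t : ℕ, T0 ≤ t → ‖((u t / D t : ℝ) : ℂ) - H t‖ ≤ C / ((t : ℝ) + 1))
    (hre : ∀ t, 0 ≤ (H t).re) (hM : ∀ t, ‖H t‖ ≤ M) (hnv : ¬ Tendsto H atTop (𝓝 0))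
    (ht : (∃ T : ℕ, ∀ t, T ≤ t → u t = 0) ∨
      (∃ ρ C : ℝ, 0 < ρ ∧ (∀ t : ℕ, |u t| ≤ C * ρ ^ t) ∧
        ¬ Tendsto (fun t : ℕ => u t / ρ ^ t) atTop (𝓝 0)) ∨
      (∃ (ρ C c : ℝ) (m : ℕ), 0 < ρ ∧ 0 < c ∧
        (∀ t : ℕ, |u t| ≤ C * (ρ ^ t * ((t : ℝ) + 1) ^ m)) ∧
        ((∃ T : ℕ, ∀ t, T ≤ t → c * (ρ ^ t * ((t : ℝ) + 1) ^ m) ≤ u t) ∨
          (∀ T : ℕ, ∃ t, T ≤ t ∧ u t ≤ -(c * (ρ ^ t * ((t : ℝ) + 1) ^ m)))))) :
    J = 0 ∨ ∃ T : ℕ, ∀ t, T ≤ t → 0 < u t := by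
  have hpos : ∀ t : ℕ, 0 < R ^ t * ((t : ℝ) + 1) ^ J := fun t => by positivity
  have hDp : ∀ t, T0 ≤ t → 0 < D t := fun t h =>
    lt_of_lt_of_le (mul_pos hB (hpos t)) (hD t h).1
  have hA : 0 < A := by
    have h1 := (hDp T0 le_rfl).trans_le (hD T0 le_rfl).2
    exact (pos_iff_pos_of_mul_pos h1).2 (hpos T0)
  -- the dominant part is not small infinitely often
  obtain ⟨κ, hκ, hinf⟩ : ∃ κ : ℝ, 0 < κ ∧ ∀ T : ℕ, ∃ t, T ≤ t ∧ κ ≤ ‖H t‖ := by
    rw [Metric.tendsto_atTop] at hnv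
    push Not at hnv
    obtain ⟨κ, hκ, h⟩ := hnv
    refine ⟨κ, hκ, fun T => ?_⟩
    obtain ⟨t, h1, h2⟩ := h T
    exact ⟨t, h1, by simpa using h2⟩
  have he : ∀ T : ℕ, ∃ t, T ≤ t ∧ κ / 2 * B * (R ^ t * ((t : ℝ) + 1) ^ J) ≤ |u t| := by
    intro T
    obtain ⟨T1, hT1⟩ := exists_nat_gt (2 * C / κ)
    obtain ⟨t, h1, h2⟩ := hinf (max T (max T0 T1))
    have h3 : T ≤ t := le_trans (le_max_left _ _) h1
    have h4 : T0 ≤ t := le_trans (le_trans (le_max_left _ _) (le_max_right _ _)) h1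
    have h5 : T1 ≤ t := le_trans (le_trans (le_max_right _ _) (le_max_right _ _)) h1
    refine ⟨t, h3, ?_⟩
    have h6 := hw t h4
    have h7 : C / ((t : ℝ) + 1) ≤ κ / 2 := by
      have h8 : (T1 : ℝ) ≤ t := by exact_mod_cast h5
      rw [div_le_iff₀ (by positivity)]
      rw [div_lt_iff₀ hκ] at hT1
      nlinarith
    have h8 : κ / 2 ≤ |u t / D t| := by
      have h9 : ‖H t‖ ≤ ‖((u t / D t : ℝ) : ℂ)‖ + ‖((u t / D t : ℝ) : ℂ) - H t‖ := by
        have := norm_sub_le ((u t / D t : ℝ) : ℂ) (((u t / D t : ℝ) : ℂ) - H t)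
        simpa using this
      rw [Complex.norm_real, Real.norm_eq_abs] at h9
      linarith
    rw [abs_div, abs_of_pos (hDp t h4), le_div_iff₀ (hDp t h4)] at h8
    refine le_trans ?_ h8
    rw [mul_assoc]
    exact mul_le_mul_of_nonneg_left (hD t h4).1 (by positivity)
  -- lower bound
  have hf : ∀ t : ℕ, T0 ≤ t → -(C * A * (R ^ t * ((t : ℝ) + 1) ^ J)) ≤ u t * ((t : ℝ) + 1) := by
    intro t h4
    have h6 := hw t h4
    have h7 : -(C / ((t : ℝ) + 1)) ≤ u t / D t := by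
      have h8 := (Complex.abs_re_le_norm (((u t / D t : ℝ) : ℂ) - H t)).trans h6
      rw [Complex.sub_re, Complex.ofReal_re] at h8
      have h9 := (abs_le.1 h8).1
      linarith [hre t]
    have hD' := hDp t h4
    rw [le_div_iff₀ hD'] at h7
    have ht1 : (0:ℝ) < (t : ℝ) + 1 := by positivity
    have h8 : -(C / ((t : ℝ) + 1)) * D t * ((t : ℝ) + 1) ≤ u t * ((t : ℝ) + 1) :=
      mul_le_mul_of_nonneg_right h7 ht1.le
    have h9 : -(C / ((t : ℝ) + 1)) * D t * ((t : ℝ) + 1) = -(C * D t) := by field_simp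
    rw [h9] at h8
    refine le_trans ?_ h8
    rw [neg_le_neg_iff, mul_assoc]
    exact mul_le_mul_of_nonneg_left (hD t h4).2 hC
  -- upper bound
  have hg : ∀ t : ℕ, T0 ≤ t → |u t| ≤ (M + C) * A * (R ^ t * ((t : ℝ) + 1) ^ J) := by
    intro t h4
    have h6 := hw t h4
    have hM0 : 0 ≤ M := (norm_nonneg _).trans (hM t)
    have h7 : |u t / D t| ≤ M + C := by
      have h9 : ‖((u t / D t : ℝ) : ℂ)‖ ≤ ‖H t‖ + ‖((u t / D t : ℝ) : ℂ) - H t‖ := by
        have := norm_add_le (H t) (((u t / D t : ℝ) : ℂ) - H t)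
        simpa using this
      rw [Complex.norm_real, Real.norm_eq_abs] at h9
      have h10 : C / ((t : ℝ) + 1) ≤ C := by
        apply div_le_self hC
        linarith [Nat.cast_nonneg (α := ℝ) t]
      linarith [hM t]
    rw [abs_div, abs_of_pos (hDp t h4), div_le_iff₀ (hDp t h4)] at h7
    refine h7.trans ?_
    rw [mul_assoc]
    exact mul_le_mul_of_nonneg_left (hD t h4).2 (by positivity)
  rcases ht with ⟨T, hT⟩ | ⟨ρ, C2, hρ, hu, hnt⟩ | ⟨ρ, C3, c, m, hρ, hc, hu, ⟨T, hT⟩ | hlow⟩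
  · exfalso
    obtain ⟨t, h1, h2⟩ := he T
    rw [hT t h1, abs_zero] at h2
    have h3 : 0 < κ / 2 * B * (R ^ t * ((t : ℝ) + 1) ^ J) := mul_pos (by positivity) (hpos t)
    linarith
  · left
    by_contra hJ
    have h1 : R < ρ := by
      have h2 := cmp (α := κ / 2 * B) (β := C2) (x := R) (y := ρ) (p := J) (q := 0)
        (by positivity) hR hρ (fun T => by
          obtain ⟨t, h3, h4⟩ := he T
          refine ⟨t, h3, h4.trans ?_⟩
          have := hu t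
          simpa using this)
      rcases h2 with h2 | ⟨_, h2⟩
      · exact h2
      · omega
    apply hnt
    have h2 := (tend (R / ρ) (by positivity) (by rw [div_lt_one hρ]; exact h1) J).const_mul
      ((M + C) * A)
    rw [mul_zero] at h2
    apply squeeze_zero_norm' _ h2
    filter_upwards [eventually_ge_atTop T0] with t ht
    rw [Real.norm_eq_abs, abs_div, abs_of_pos (by positivity : 0 < ρ ^ t),
      div_le_iff₀ (by positivity)]
    refine (hg t ht).trans (le_of_eq ?_)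
    rw [div_pow]
    field_simp
  · right
    refine ⟨T, fun t ht => lt_of_lt_of_le ?_ (hT t ht)⟩
    positivity
  · exfalso
    have h1 := cmp (α := κ / 2 * B) (β := C3) (x := R) (y := ρ) (p := J) (q := m)
        (by positivity) hR hρ (fun T => by
          obtain ⟨t, h3, h4⟩ := he T
          exact ⟨t, h3, h4.trans (hu t)⟩)
    have h2 := cmp (α := c) (β := C * A) (x := ρ) (y := R) (p := m + 1) (q := J)
        hc hρ hR (fun T => by
          obtain ⟨t, h3, h4⟩ := hlow (max T T0)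
          refine ⟨t, le_trans (le_max_left _ _) h3, ?_⟩
          have h5 := hf t (le_trans (le_max_right _ _) h3)
          have h6 : u t * ((t : ℝ) + 1) ≤ -(c * (ρ ^ t * ((t : ℝ) + 1) ^ m)) * ((t : ℝ) + 1) :=
            mul_le_mul_of_nonneg_right h4 (by positivity)
          have h7 : -(c * (ρ ^ t * ((t : ℝ) + 1) ^ m)) * ((t : ℝ) + 1) =
            -(c * (ρ ^ t * ((t : ℝ) + 1) ^ (m + 1))) := by ring
          rw [h7] at h6
          linarith)
    rcases h1 with h1 | ⟨h1, h1'⟩ <;> rcases h2 with h2 | ⟨h2, h2'⟩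
    · linarith
    · linarith
    · linarith
    · omega

lemma choose_lower (n t J : ℕ) (h1 : t ≤ n) (h2 : 2 * J ≤ t) :
    ((t : ℝ) + 1) ^ J / (2 ^ J * (J.factorial : ℝ)) ≤ (n.choose J : ℝ) := by
  refine le_trans ?_ (Nat.pow_le_choose (α := ℝ) J n)
  rw [← div_div, ← div_pow]
  have h3 : ((t : ℝ) + 1) / 2 ≤ ((n + 1 - J : ℕ) : ℝ) := by
    have h4 : t + 1 ≤ 2 * (n + 1 - J) := by omega
    have h5 : ((t + 1 : ℕ) : ℝ) ≤ ((2 * (n + 1 - J) : ℕ) : ℝ) := by exact_mod_cast h4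
    push_cast at h5
    push_cast
    linarith
  gcongr

lemma choose_upper (n t J K : ℕ) (h1 : n ≤ K * (t + 1)) :
    (n.choose J : ℝ) ≤ (K : ℝ) ^ J * ((t : ℝ) + 1) ^ J := by
  have h2 : n.choose J ≤ (K * (t + 1)) ^ J :=
    (Nat.choose_le_pow n J).trans (Nat.pow_le_pow_left h1 J)
  have h3 : ((n.choose J : ℕ) : ℝ) ≤ (((K * (t + 1)) ^ J : ℕ) : ℝ) := by exact_mod_cast h2
  push_cast at h3
  rwa [mul_pow] at h3

end TAM

open TAM in
theorem tam : ASYM → NV → RESC → TAM := by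
  intro hASYM hNV hRESC l lam c q0 r ρ J S1 S2 hl hrep hq0 hz hcls t0 b hb htame
  obtain ⟨C, hC⟩ := hASYM l lam c q0 r ρ J S1 S2 hl hrep hq0 hcls
  obtain ⟨I, a, B, hcard, hI, hSep, hne, hsum⟩ := hRESC l lam c q0 r ρ J S1 S2 hl hq0 hz hcls
  have hρ := hcls.rho
  have hn : ∀ t : ℕ, r + q0 * t0 + q0 * b * t = r + q0 * (t0 + b * t) := by intro t; ring
  have hnt : ∀ t : ℕ, t ≤ r + q0 * (t0 + b * t) := by
    intro t
    calc t = 1 * (1 * t) := by ring
      _ ≤ q0 * (b * t) := Nat.mul_le_mul hq0 (Nat.mul_le_mul_right t hb)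
      _ ≤ q0 * (t0 + b * t) := Nat.mul_le_mul_left q0 (Nat.le_add_left _ _)
      _ ≤ _ := Nat.le_add_left _ _
  have hmain := TAM.main (fun t => ((seq l (r + q0 * (t0 + b * t)) : ℚ) : ℝ))
    (fun t => ρ ^ (r + q0 * (t0 + b * t)) * ((r + q0 * (t0 + b * t)).choose J : ℝ))
    (fun t => ∑ μ ∈ I, a μ * μ ^ (t0 + b * t)) (ρ ^ (q0 * b))
    (ρ ^ (r + q0 * t0) * ((r + q0 * t0 + q0 * b : ℕ) : ℝ) ^ J)
    (ρ ^ (r + q0 * t0) / (2 ^ J * (J.factorial : ℝ))) |C| (∑ μ ∈ I, ‖a μ‖) J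
    (max l.length (2 * J)) (by positivity) (by positivity) ?_ (abs_nonneg C) ?_ ?_ ?_ ?_ ?_
  · rcases hmain with h | ⟨T, hT⟩
    · exact Or.inl h
    · refine Or.inr ⟨T, fun t ht => ?_⟩
      rw [hn]
      exact_mod_cast hT t ht
  · intro t ht
    have h1 : 2 * J ≤ t := le_trans (le_max_right _ _) ht
    have h2 : ρ ^ (r + q0 * (t0 + b * t)) = ρ ^ (r + q0 * t0) * (ρ ^ (q0 * b)) ^ t := by
      rw [← hn, pow_add ρ (r + q0 * t0), pow_mul]
    have hp : 0 < ρ ^ (r + q0 * t0) * (ρ ^ (q0 * b)) ^ t := by positivity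
    constructor
    · have h3 := choose_lower (r + q0 * (t0 + b * t)) t J (hnt t) h1
      simp only [h2]
      calc _ = (ρ ^ (r + q0 * t0) * (ρ ^ (q0 * b)) ^ t) *
            (((t : ℝ) + 1) ^ J / (2 ^ J * (J.factorial : ℝ))) := by ring
        _ ≤ _ := mul_le_mul_of_nonneg_left h3 hp.le
    · have h3 := choose_upper (r + q0 * (t0 + b * t)) t J (r + q0 * t0 + q0 * b) (by
        rw [← hn]
        nlinarith [Nat.zero_le (r * t), Nat.zero_le (q0 * t0 * t), Nat.zero_le (q0 * b)])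
      simp only [h2]
      calc _ ≤ (ρ ^ (r + q0 * t0) * (ρ ^ (q0 * b)) ^ t) *
            (((r + q0 * t0 + q0 * b : ℕ) : ℝ) ^ J * ((t : ℝ) + 1) ^ J) :=
            mul_le_mul_of_nonneg_left h3 hp.le
        _ = _ := by ring
  · intro t ht
    have h1 : l.length ≤ r + q0 * (t0 + b * t) :=
      (le_trans (le_max_left _ _) ht).trans (hnt t)
    have h2 := hC (t0 + b * t) h1
    rw [hsum] at h2
    have h3 : ((((seq l (r + q0 * (t0 + b * t)) : ℚ) : ℝ) /
        (ρ ^ (r + q0 * (t0 + b * t)) * ((r + q0 * (t0 + b * t)).choose J : ℝ)) : ℝ) : ℂ) =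
        ((seq l (r + q0 * (t0 + b * t)) : ℚ) : ℂ) /
        ((ρ : ℂ) ^ (r + q0 * (t0 + b * t)) * ((r + q0 * (t0 + b * t)).choose J : ℂ)) := by
      push_cast
      rfl
    simp only [h3]
    refine h2.trans ?_
    have h4 : (t : ℝ) + 1 ≤ ((t0 + b * t : ℕ) : ℝ) + 1 := by
      have : t ≤ t0 + b * t := by nlinarith
      have h5 : (t : ℝ) ≤ ((t0 + b * t : ℕ) : ℝ) := by exact_mod_cast this
      linarith
    have h5 : (0:ℝ) < (t : ℝ) + 1 := by positivity
    calc C / (((t0 + b * t : ℕ) : ℝ) + 1) ≤ |C| / (((t0 + b * t : ℕ) : ℝ) + 1) := by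
          gcongr
          exact le_abs_self C
      _ ≤ _ := div_le_div_of_nonneg_left (abs_nonneg C) h5 h4
  · intro t
    have := hcls.nonneg (t0 + b * t)
    rw [hsum] at this
    exact this
  · intro t
    refine (norm_sum_le _ _).trans (Finset.sum_le_sum fun μ hμ => ?_)
    rw [norm_mul, norm_pow, hI μ hμ, one_pow, mul_one]
  · apply hNV I a hI _ hne t0 b hb
    intro μ hμ ν hν hne' s hs heq
    have h1 := hSep μ hμ ν hν hne' s hs
    rw [heq, sub_self, norm_zero] at h1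
    exact absurd h1 (not_le.2 (Real.exp_pos _))
  · unfold TameAt at htame
    simp only [hn] at htame
    rcases htame with ⟨T, hT⟩ | h | h
    · left
      exact ⟨T, fun t ht => by exact_mod_cast hT t ht⟩
    · right; left
      exact h
    · right; right
      exact h

end Pool.Agent.TH997.DD
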