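import Pool.Agent.TH997.DD.Stm2
import Pool.Agent.TH286.GT.Main
import Pool.Agent.TH286.GT.All

/-!
# Sets of nonpositive terms of linear recurrences: syndetic or sparse. Assembly with the tame part
-/

set_option autoImplicit false

namespace Pool.Agent.TH997.DD.Fin2

open Pool.Agent.NPC Pool.Agent.NPC.ER Pool.Agent.NPC.H612 Pool.Agent.H612.PG Pool.Agent.H612.LR
open Pool.Agent.TH286.GT.CLD Pool.Agent.TH286.GT.Main

/-- The typed reduction. -/
theorem main_typed (hS : SNDS) (hE : CLE) (hT : CLT) (hG : GrowthTheorem) :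
    ∃ g : Rec → Fm, Poly g ∧ ∀ l : Rec, l ≠ [] →
      (ETR (g l) → Synd l) ∧ (¬ ETR (g l) → Sparse l) ∧
      ((NonTight l ∨ SmallMultipleRoots l ∨ Tame l) → ¬ UltPositive l → ETR (g l)) := by
  obtain ⟨A0, hA0⟩ := hS
  obtain ⟨C, hC⟩ := t_TOR t_TORK
  obtain ⟨A1, hA1⟩ := t_CMP (t_DEC t_DIR) A0 C
  refine ⟨fun l => lrFm l (A1 * Pool.Agent.H612.LR.sz l ^ A1)
    (A0 * Pool.Agent.H612.LR.sz l ^ A0), t_PLY A0 A1, fun l hl => ?_⟩
  have hk : 1 ≤ l.length := List.length_pos_iff.2 hl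
  have hiff := etr_iff t_HLD t_SUR t_VC1 t_VC2 l (A1 * Pool.Agent.H612.LR.sz l ^ A1)
    (A0 * Pool.Agent.H612.LR.sz l ^ A0) hk
  obtain ⟨lam, c, hrep, hmul, halg⟩ := t_RPE l hk
  obtain ⟨q0, hq1, hq2, hq3⟩ := hC l hk
  have hroot : ∀ i < l.length, (∃ j < l.length, c i j ≠ 0) → IsRoot l (lam i) := by
    rintro i hi ⟨j, hj, hne⟩
    rw [t_ROOT l _ hk]
    by_contra hcon
    exact hne (hmul i hi j hj (by rw [Multiset.count_eq_zero.2 hcon]; exact Nat.zero_le _))
  have fin : ∀ d : CD, d.lam = lam → d.c = c → d.q ≤ 2 ^ (C * Pool.Agent.H612.LR.sz l ^ C) →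
      d.Pre l → ETR (lrFm l (A1 * Pool.Agent.H612.LR.sz l ^ A1)
        (A0 * Pool.Agent.H612.LR.sz l ^ A0)) := by
    intro d e1 e2 e3 e4
    exact hiff.2 (hA1 l d hk (by rw [e1, e2]; exact hrep) e4 e3)
  refine ⟨fun h => hA0 l _ hk (hiff.1 h), fun h => ?_, fun hcl hnup => ?_⟩
  · refine hE l lam c q0 hk hrep hroot hq1 hq3 fun d e1 e2 e3 e4 => h ?_
    exact fin d e1 e2 (by rw [e3]; exact hq2) e4
  · rcases hcl with h | h | h
    · obtain ⟨d, e1, e2, e3, e4⟩ := t_CLA t_MEAN l lam c hk hrep hroot h hnup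
      exact fin d e1 e2 (by rw [e3]; exact Nat.one_le_two_pow) e4
    · have hsm : SmallMult l lam c := by
        rintro i hi ⟨j, hj, hj0, hne⟩
        have hcount : ¬ (croots l).count (lam i) ≤ j := fun hle => hne (hmul i hi j hj hle)
        have hmem : lam i ∈ croots l := by
          by_contra hcon
          rw [Multiset.count_eq_zero.2 hcon] at hcount
          exact hcount (Nat.zero_le _)
        exact h (lam i) hmem (by omega)
      obtain ⟨d, e1, e2, e3, e4⟩ := t_CLD hG l lam c q0 hk hrep hroot hsm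
        (fun i hi => halg i hi 0 (by omega)) hq1 hq3 hnup
      exact fin d e1 e2 (by rw [e3]; exact hq2) e4
    · by_contra hno
      refine hnup (hT hG l lam c q0 hk hrep hroot (fun i hi => halg i hi 0 (by omega)) hq1 hq3
        (fun d e1 e2 e3 e4 => hno ?_) h)
      exact fin d e1 e2 (by rw [e3]; exact hq2) e4

/-- From typed reductions to functions on strings. -/
theorem main_str (hS : SNDS) (hE : CLE) (hT : CLT) :
    ∃ f : List Bool → Fm, PolyTime (fun w => bits (f w)) ∧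
    ∀ l : Rec, l ≠ [] →
      (ETR (f (bits l)) → Synd l) ∧ (¬ ETR (f (bits l)) → Sparse l) ∧
      ((NonTight l ∨ SmallMultipleRoots l ∨ Tame l) → ¬ UltPositive l → ETR (f (bits l))) := by
  obtain ⟨g, hg, h⟩ := main_typed hS hE hT Pool.Agent.TH286.GT.growth
  obtain ⟨f, hf, h'⟩ := toStr hg
  refine ⟨f, hf, fun l hl => ?_⟩
  rw [h']
  exact h l hl

end Pool.Agent.TH997.DD.Fin2
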