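import Pool.Agent.H612.LR.Stm

/-!
# Sets of nonpositive terms of linear recurrences: syndetic or sparse. Statements

For every linear recurrence (multiple roots and tight behaviour allowed) either there is a
certificate (`Cert`), and then the set of the indices of nonpositive terms is syndetic, or this set
has at most `C N / (log N) ^ (2 ^ (-k))` elements below `N`, where `k` is the order.
-/

set_option autoImplicit false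

namespace Pool.Agent.TH997.DD

open Finset Pool.Agent.H612.LR
open scoped Classical

/-- The indices of the nonpositive terms have bounded gaps. -/
def Synd (l : Rec) : Prop := ∃ b : ℕ, ∀ N : ℕ, ∃ n, N ≤ n ∧ n ≤ N + b ∧ seq l n ≤ 0

/-- Few indices of nonpositive terms. -/
def Sparse (l : Rec) : Prop := ∃ C : ℝ, ∀ N : ℕ, 2 ≤ N →
  (((range N).filter (fun n => seq l n ≤ 0)).card : ℝ) ≤
    C * (N / Real.log N ^ ((1 / 2 : ℝ) ^ l.length))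

/-! ### Soundness -/

/-- KRS: Kronecker's theorem with bounded gaps. -/
def KRS : Prop := ∀ (D : Finset ℕ) (g w : ℕ → ℂ), (∀ i ∈ D, ‖g i‖ = 1 ∧ ‖w i‖ = 1) →
  (∀ e : ℕ → ℤ, mon D g e = 1 → mon D w e = 1) →
  ∀ ε : ℝ, 0 < ε → ∃ b : ℕ, ∀ T : ℕ, ∃ t, T ≤ t ∧ t ≤ T + b ∧ ∀ i ∈ D, ‖g i ^ t - w i‖ < ε

/-- SNDS: a certificate gives a syndetic set of nonpositive terms. -/
def SNDS : Prop := ∃ A0 : ℕ, ∀ (l : Rec) (Nb : ℕ), 1 ≤ l.length →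
  Cert l Nb (A0 * sz l ^ A0) → Synd l

/-! ### Completeness -/

/-- The powers of the elements of `I` are not too close to each other. -/
def Sep (I : Finset ℂ) (B : ℝ) : Prop := ∀ μ ∈ I, ∀ ν ∈ I, μ ≠ ν → ∀ s : ℕ, 1 ≤ s →
  Real.exp (-(B * s)) ≤ ‖μ ^ s - ν ^ s‖

/-- REM: an exponential sum which is small on a large set has small coefficients. -/
def REM : Prop := ∀ (m : ℕ) (I : Finset ℂ) (a : ℂ → ℂ) (B ε M : ℝ) (N : ℕ) (E : Finset ℕ)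
  (μ0 : ℂ), I.card ≤ m → 1 ≤ B → μ0 ∈ I → (∀ μ ∈ I, ‖μ‖ = 1) → Sep I B → 0 < ε → ε ≤ 1 →
  (20 / ε) ^ (2 ^ m) ≤ (N : ℝ) → E ⊆ range N → ε * N ≤ E.card →
  (∀ t ∈ E, ‖∑ μ ∈ I, a μ * μ ^ t‖ ≤ M) →
  ‖a μ0‖ * Real.exp (-(B * (20 / ε) ^ (2 ^ m))) ≤ M

/-- CTE: an exponential sum is seldom very small. -/
def CTE : Prop := ∀ (m : ℕ) (I : Finset ℂ) (a : ℂ → ℂ) (B C : ℝ), I.card ≤ m →
  (∀ μ ∈ I, ‖μ‖ = 1) → Sep I B → (∃ μ ∈ I, a μ ≠ 0) → ∃ C' : ℝ, ∀ N : ℕ, 2 ≤ N →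
  (((range N).filter (fun t : ℕ => ‖∑ μ ∈ I, a μ * μ ^ t‖ ≤ C / ((t : ℝ) + 1))).card : ℝ) ≤
    C' * (N / Real.log N ^ ((1 / 2 : ℝ) ^ m))

/-- LIO: Liouville's inequality. -/
def LIO : Prop := ∀ x : ℂ, IsAlgebraic ℚ x → ∃ B : ℝ, ∀ s : ℕ, 1 ≤ s → x ^ s ≠ 1 →
  Real.exp (-(B * s)) ≤ ‖x ^ s - 1‖

/-- The data of a residue class without certificate. -/
structure Cls (l : Rec) (lam : ℕ → ℂ) (c : ℕ → ℕ → ℂ) (q0 r : ℕ) (ρ : ℝ) (J : ℕ)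
    (S1 S2 : Finset ℕ) : Prop where
  rho : 0 < ρ
  jlt : J < l.length
  s1 : ∀ i ∈ S1, i < l.length ∧ ‖lam i‖ = ρ ∧ IsRoot l (lam i)
  s2 : ∀ i ∈ S2, i < l.length ∧ ‖lam i‖ < ρ
  split : ∀ t : ℕ, expo l.length lam c (r + q0 * t) =
    ∑ i ∈ S1, ∑ j ∈ range (J + 1), c i j * ((r + q0 * t).choose j : ℂ) * lam i ^ (r + q0 * t) +
    ∑ i ∈ S2, ∑ j ∈ range l.length, c i j * ((r + q0 * t).choose j : ℂ) * lam i ^ (r + q0 * t)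
  nonneg : ∀ t : ℕ, 0 ≤ (∑ i ∈ S1, c i J * (lam i / (ρ : ℂ)) ^ (r + q0 * t)).re
  ne : ∃ t : ℕ, ∑ i ∈ S1, c i J * (lam i / (ρ : ℂ)) ^ (r + q0 * t) ≠ 0

/-- RESA: the dominant part of a residue class without certificate. -/
def RESA : Prop := ∀ (l : Rec) (lam : ℕ → ℂ) (c : ℕ → ℕ → ℂ) (q0 : ℕ), 1 ≤ l.length →
  Rep l lam c → (∀ i < l.length, (∃ j < l.length, c i j ≠ 0) → IsRoot l (lam i)) → 1 ≤ q0 →
  (∀ d : CD, d.lam = lam → d.c = c → d.q = q0 → ¬ d.Pre l) →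
  ∀ r : ℕ, ∃ (ρ : ℝ) (J : ℕ) (S1 S2 : Finset ℕ), Cls l lam c q0 r ρ J S1 S2

/-- RESB: at nonpositive terms the dominant part is small. -/
def RESB : Prop := ∀ (l : Rec) (lam : ℕ → ℂ) (c : ℕ → ℕ → ℂ) (q0 r : ℕ) (ρ : ℝ) (J : ℕ)
  (S1 S2 : Finset ℕ), 1 ≤ l.length → Rep l lam c → 1 ≤ q0 → Cls l lam c q0 r ρ J S1 S2 →
  ∃ C : ℝ, ∀ t : ℕ, seq l (r + q0 * t) ≤ 0 →
    ‖∑ i ∈ S1, c i J * (lam i / (ρ : ℂ)) ^ (r + q0 * t)‖ ≤ C / ((t : ℝ) + 1)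

/-- RESC: the dominant part as an exponential sum with separated bases. -/
def RESC : Prop := ∀ (l : Rec) (lam : ℕ → ℂ) (c : ℕ → ℕ → ℂ) (q0 r : ℕ) (ρ : ℝ) (J : ℕ)
  (S1 S2 : Finset ℕ), 1 ≤ l.length → 1 ≤ q0 →
  (∀ z w : ℂ, IsRoot l z → IsRoot l w → z ≠ 0 → w ≠ 0 → ∀ t : ℕ, 1 ≤ t → z ^ t = w ^ t →
    z ^ q0 = w ^ q0) → Cls l lam c q0 r ρ J S1 S2 →
  ∃ (I : Finset ℂ) (a : ℂ → ℂ) (B : ℝ), I.card ≤ l.length ∧ (∀ μ ∈ I, ‖μ‖ = 1) ∧ Sep I B ∧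
    (∃ μ ∈ I, a μ ≠ 0) ∧
    ∀ t : ℕ, ∑ i ∈ S1, c i J * (lam i / (ρ : ℂ)) ^ (r + q0 * t) = ∑ μ ∈ I, a μ * μ ^ t

/-- CLE: without certificate data the nonpositive terms are sparse. -/
def CLE : Prop := ∀ (l : Rec) (lam : ℕ → ℂ) (c : ℕ → ℕ → ℂ) (q0 : ℕ), 1 ≤ l.length →
  Rep l lam c → (∀ i < l.length, (∃ j < l.length, c i j ≠ 0) → IsRoot l (lam i)) → 1 ≤ q0 →
  (∀ z w : ℂ, IsRoot l z → IsRoot l w → z ≠ 0 → w ≠ 0 → ∀ t : ℕ, 1 ≤ t → z ^ t = w ^ t →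
    z ^ q0 = w ^ q0) →
  (∀ d : CD, d.lam = lam → d.c = c → d.q = q0 → ¬ d.Pre l) → Sparse l

end Pool.Agent.TH997.DD
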