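import Pool.Agent.TH997.DD.Stm

/-!
# Sets of nonpositive terms: tame recurrences. Statements
-/

set_option autoImplicit false

namespace Pool.Agent.TH997.DD

open Finset Filter Topology Pool.Agent.H612.LR
open scoped Classical

/-- Tameness along the progression `a + b t`: the sequence vanishes from some point on, or is
`O(ρ^t)` and not `o(ρ^t)` for some `ρ > 0`, or is not tight: it is `O(ρ^t (t+1)^m)` and the quotient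
has a nonzero lower limit. -/
def TameAt (l : Rec) (a b : ℕ) : Prop :=
  (∃ T : ℕ, ∀ t, T ≤ t → seq l (a + b * t) = 0) ∨
  (∃ ρ C : ℝ, 0 < ρ ∧ (∀ t : ℕ, |(seq l (a + b * t) : ℝ)| ≤ C * ρ ^ t) ∧
    ¬ Tendsto (fun t : ℕ => (seq l (a + b * t) : ℝ) / ρ ^ t) atTop (𝓝 0)) ∨
  (∃ (ρ C c : ℝ) (m : ℕ), 0 < ρ ∧ 0 < c ∧
    (∀ t : ℕ, |(seq l (a + b * t) : ℝ)| ≤ C * (ρ ^ t * ((t : ℝ) + 1) ^ m)) ∧
    ((∃ T : ℕ, ∀ t, T ≤ t → c * (ρ ^ t * ((t : ℝ) + 1) ^ m) ≤ (seq l (a + b * t) : ℝ)) ∨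
      (∀ T : ℕ, ∃ t, T ≤ t ∧ (seq l (a + b * t) : ℝ) ≤ -(c * (ρ ^ t * ((t : ℝ) + 1) ^ m)))))

/-- The recurrence is tame: it is tame along all progressions with sufficiently divisible
differences. -/
def Tame (l : Rec) : Prop := ∃ b0 : ℕ, 1 ≤ b0 ∧ ∀ b : ℕ, 1 ≤ b → b0 ∣ b → ∀ a : ℕ, TameAt l a b

/-- ASYM: asymptotics in a residue class without certificate. -/
def ASYM : Prop := ∀ (l : Rec) (lam : ℕ → ℂ) (c : ℕ → ℕ → ℂ) (q0 r : ℕ) (ρ : ℝ) (J : ℕ)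
  (S1 S2 : Finset ℕ), 1 ≤ l.length → Rep l lam c → 1 ≤ q0 → Cls l lam c q0 r ρ J S1 S2 →
  ∃ C : ℝ, ∀ t : ℕ, l.length ≤ r + q0 * t →
    ‖((seq l (r + q0 * t) : ℚ) : ℂ) / ((ρ : ℂ) ^ (r + q0 * t) * ((r + q0 * t).choose J : ℂ)) -
      ∑ i ∈ S1, c i J * (lam i / (ρ : ℂ)) ^ (r + q0 * t)‖ ≤ C / ((t : ℝ) + 1)

/-- NV: a nonzero exponential sum with nondegenerate unimodular bases does not tend to zero along
an arithmetic progression. -/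
def NV : Prop := ∀ (I : Finset ℂ) (a : ℂ → ℂ), (∀ μ ∈ I, ‖μ‖ = 1) →
  (∀ μ ∈ I, ∀ ν ∈ I, μ ≠ ν → ∀ s : ℕ, 1 ≤ s → μ ^ s ≠ ν ^ s) → (∃ μ ∈ I, a μ ≠ 0) →
  ∀ t0 b : ℕ, 1 ≤ b →
    ¬ Tendsto (fun s : ℕ => ∑ μ ∈ I, a μ * μ ^ (t0 + b * s)) atTop (𝓝 0)

/-- GRW: growth in a residue class with simple dominant part. -/
def GRW : Prop := GrowthTheorem → ∀ (l : Rec) (lam : ℕ → ℂ) (c : ℕ → ℕ → ℂ) (q0 r : ℕ) (ρ : ℝ)
  (S1 S2 : Finset ℕ), 1 ≤ l.length → Rep l lam c → (∀ i < l.length, IsAlgebraic ℚ (c i 0)) →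
  1 ≤ q0 →
  (∀ z w : ℂ, IsRoot l z → IsRoot l w → z ≠ 0 → w ≠ 0 → ∀ t : ℕ, 1 ≤ t → z ^ t = w ^ t →
    z ^ q0 = w ^ q0) → Cls l lam c q0 r ρ 0 S1 S2 →
  ∃ T : ℕ, ∀ t, T ≤ t → 0 < seq l (r + q0 * t)

/-- TAM: in a residue class without certificate, along a tame progression, the dominant part is
simple or the sequence is positive from some point on. -/
def TAM : Prop := ∀ (l : Rec) (lam : ℕ → ℂ) (c : ℕ → ℕ → ℂ) (q0 r : ℕ) (ρ : ℝ) (J : ℕ)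
  (S1 S2 : Finset ℕ), 1 ≤ l.length → Rep l lam c → 1 ≤ q0 →
  (∀ z w : ℂ, IsRoot l z → IsRoot l w → z ≠ 0 → w ≠ 0 → ∀ t : ℕ, 1 ≤ t → z ^ t = w ^ t →
    z ^ q0 = w ^ q0) → Cls l lam c q0 r ρ J S1 S2 →
  ∀ t0 b : ℕ, 1 ≤ b → TameAt l (r + q0 * t0) (q0 * b) →
    J = 0 ∨ ∃ T : ℕ, ∀ t, T ≤ t → 0 < seq l (r + q0 * t0 + q0 * b * t)

/-- CLT: tame recurrences without certificate are ultimately positive. -/
def CLT : Prop := GrowthTheorem → ∀ (l : Rec) (lam : ℕ → ℂ) (c : ℕ → ℕ → ℂ) (q0 : ℕ),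
  1 ≤ l.length → Rep l lam c →
  (∀ i < l.length, (∃ j < l.length, c i j ≠ 0) → IsRoot l (lam i)) →
  (∀ i < l.length, IsAlgebraic ℚ (c i 0)) → 1 ≤ q0 →
  (∀ z w : ℂ, IsRoot l z → IsRoot l w → z ≠ 0 → w ≠ 0 → ∀ t : ℕ, 1 ≤ t → z ^ t = w ^ t →
    z ^ q0 = w ^ q0) →
  (∀ d : CD, d.lam = lam → d.c = c → d.q = q0 → ¬ d.Pre l) → Tame l → UltPositive l

end Pool.Agent.TH997.DD
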